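import Mathlib

set_option autoImplicit false

/-!
# Drawings of graphs on closed orientable surfaces, combinatorially

A connected graph drawn on a closed orientable surface is encoded by the combinatorial map
(rotation system) of its planarisation: the graph obtained by turning every crossing into a vertex.
-/

namespace Pool.Agent.MP_c359ba_co

/-- A combinatorial map: a finite set `D` of darts (directed edges), the permutation `σ` that
sends a dart to the next dart in the rotation around its base point, and the fixed-point-free
involution `α` that reverses a dart. The group generated by `σ` and `α` acts transitively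
(field `conn`). Combinatorial maps are the cell decompositions of closed connected oriented
surfaces: vertices, edges and faces are the cycles of `σ`, of `α` and of `σ * α`. -/
structure CMap where
  /-- the darts -/
  D : Type
  /-- there are finitely many darts -/
  fin : Fintype D
  /-- rotation around the base point -/
  σ : Equiv.Perm D
  /-- reversal -/
  α : Equiv.Perm D
  α_ne : ∀ d, α d ≠ d
  α_α : ∀ d, α (α d) = d
  conn : ∀ P : D → Prop, (∀ d, P d → P (σ d) ∧ P (α d)) → (∃ d, P d) → ∀ d, P d

namespace CMap

/-- The number of vertices (cycles of `σ`). -/
noncomputable def numV (M : CMap) : ℕ := Nat.card (Quotient (Equiv.Perm.SameCycle.setoid M.σ))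

/-- The number of edges (half the number of darts). -/
noncomputable def numE (M : CMap) : ℕ := Nat.card M.D / 2

/-- The number of faces (cycles of `σ * α`). -/
noncomputable def numF (M : CMap) : ℕ :=
  Nat.card (Quotient (Equiv.Perm.SameCycle.setoid (M.σ * M.α)))

/-- The map lives on a surface of genus at most `g`: by Euler's formula `V - E + F = 2 - 2h`,
where `h` is the genus, so `h ≤ g` iff `E + 2 ≤ V + F + 2g`. -/
def GenusLE (M : CMap) (g : ℕ) : Prop := M.numE + 2 ≤ M.numV + M.numF + 2 * g

end CMap

/-- A drawing of a (connected, simple) graph `G`, given by the combinatorial map of its
planarisation. `cross d` says that the base point of the dart `d` is a crossing (otherwise it is a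
vertex of `G`), and `lab d` is the oriented edge of `G` along which `d` travels.

* Around a vertex `v` of `G` there is exactly one dart for each oriented edge of `G` leaving `v`.
* At a crossing exactly two edges of `G` meet, and they cross properly: the four darts around the
  crossing belong alternately to the two edges, and these are different.
* `pos` counts the crossings already passed when travelling along an oriented edge; its existence
  says that each edge of `G` is drawn as one arc (there are no stray closed curves). -/
structure Drawing {V : Type} (G : SimpleGraph V) extends CMap where
  cross : D → Prop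
  lab : D → G.Dart
  pos : D → ℕ
  lab_α : ∀ d, lab (α d) = (lab d).symm
  cross_σ : ∀ d, cross (σ d) ↔ cross d
  cross_four : ∀ d, cross d → σ (σ (σ (σ d))) = d
  cross_opp : ∀ d, cross d → lab (σ (σ d)) = (lab d).symm
  cross_ne : ∀ d, cross d → (lab (σ d)).edge ≠ (lab d).edge
  vert_same : ∀ d e, ¬ cross d → ¬ cross e →
    (Equiv.Perm.SameCycle σ d e ↔ (lab d).fst = (lab e).fst)
  vert_bij : ∀ a : G.Dart, ∃! d, ¬ cross d ∧ lab d = a
  pos_zero : ∀ d, ¬ cross d → pos d = 0
  pos_succ : ∀ d, cross (α d) → pos (σ (σ (α d))) = pos d + 1

namespace Drawing

variable {V : Type} {G : SimpleGraph V}

/-- The number of crossings between the edges `e` and `f` (`e ≠ f`). Every crossing of `e` and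
`f` has four darts; exactly two of them, namely those along `e`, satisfy the condition below. -/
noncomputable def crossings (M : Drawing G) (e f : Sym2 V) : ℕ :=
  Nat.card {d : M.D // M.cross d ∧ (M.lab d).edge = e ∧ (M.lab (M.σ d)).edge = f} / 2

/-- Every two independent edges (edges without a common endpoint) cross an even number of
times. -/
def IndependentlyEven (M : Drawing G) : Prop :=
  ∀ e ∈ G.edgeSet, ∀ f ∈ G.edgeSet, (∀ v, v ∈ e → v ∉ f) → Even (M.crossings e f)

/-- A drawing without crossings. -/
def IsEmbedding (M : Drawing G) : Prop := ∀ d, ¬ M.cross d

end Drawing

/-- The strong Hanani-Tutte property for the closed orientable surface of genus `g` (for connected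
graphs): a graph with a drawing on the surface in which all pairs of independent edges
cross an even number of times has an embedding on the surface. A connected graph has such a
drawing (embedding) on the surface of genus `g` iff it has a combinatorial one of genus at most
`g`. -/
def StrongHananiTutte (g : ℕ) : Prop :=
  ∀ (V : Type) [Fintype V] (G : SimpleGraph V), G.Connected →
    (∃ M : Drawing G, M.GenusLE g ∧ M.IndependentlyEven) →
    ∃ M : Drawing G, M.GenusLE g ∧ M.IsEmbedding

end Pool.Agent.MP_c359ba_co
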