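import Mathlib

set_option autoImplicit false

/-!
# The finite check

The reduced map (the flat cycle, the columns, the three stars, the chord) has at most four faces
for every choice of the rotations at the three stars.
-/

namespace Pool.Agent.MP_c359ba_co

/-- The six cyclic rotations of four elements. -/
def rotTab (r k : ℕ) : ℕ :=
  match r, k with
  | 0, 0 => 1 | 0, 1 => 2 | 0, 2 => 3 | 0, _ => 0
  | 1, 0 => 1 | 1, 1 => 3 | 1, 2 => 0 | 1, _ => 2
  | 2, 0 => 2 | 2, 1 => 3 | 2, 2 => 1 | 2, _ => 0
  | 3, 0 => 2 | 3, 1 => 0 | 3, 2 => 3 | 3, _ => 1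
  | 4, 0 => 3 | 4, 1 => 2 | 4, 2 => 0 | 4, _ => 1
  | _, 0 => 3 | _, 1 => 0 | _, 2 => 1 | _, _ => 2

/-- Reversal on the codes: `p` is the dart `p → p + 1` of the cycle, `14 + p` the dart
`p → p - 1`, `28 + p` the dart leaving the cycle at `p`, `42 + p` the dart of the star of `p`
towards `p`. -/
def ar (c : ℕ) : ℕ :=
  if c < 14 then 14 + (c + 1) % 14
  else if c < 28 then (c - 14 + 13) % 14
  else if c < 42 then (if c = 34 then 41 else if c = 41 then 34 else c + 14)
  else c - 14

/-- The index (0 to 3) of a position at its star. -/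
def idx (p : ℕ) : ℕ := 2 * (p / 7) + (p % 7) / 3

/-- The position with a given index at the star `j`. -/
def posOf (j k : ℕ) : ℕ := j + 3 * (k % 2) + 7 * (k / 2)

/-- Rotation on the codes. -/
def sr (s : Bool) (r : ℕ → ℕ) (c : ℕ) : ℕ :=
  if c < 14 then (if s then 28 + c else 14 + c)
  else if c < 28 then (if s then c - 14 else c + 14)
  else if c < 42 then (if s then c - 14 else c - 28)
  else 42 + posOf ((c - 42) % 7 % 3) (rotTab (r ((c - 42) % 7 % 3)) (idx (c - 42)))

/-- The rotations of the three stars from three numbers. -/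
def rr (a b c : ℕ) (j : ℕ) : ℕ := if j = 0 then a else if j = 1 then b else c

/-- The reduced face permutation. -/
def fr (s : Bool) (r : ℕ → ℕ) (c : ℕ) : ℕ := sr s r (ar c)

/-- Bit mask of the codes in use. -/
def full : ℕ := 2 ^ 56 - 1 - 2 ^ 48 - 2 ^ 55

/-- Mark the points visited from `x` in `k` steps. -/
def iter (f : ℕ → ℕ) : ℕ → ℕ → ℕ → ℕ
  | 0, _, m => m
  | k + 1, x, m => bif m.testBit x then m else iter f k (f x) (m ||| (1 <<< x))

/-- The least code in use not marked yet. -/
def missing (m : ℕ) : ℕ :=
  ((List.range 56).find? (fun i => full.testBit i && !m.testBit i)).getD 0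

/-- Check that `k` further cycles exhaust all codes. -/
def go (f : ℕ → ℕ) : ℕ → ℕ → Bool
  | 0, m => (full &&& m) == full
  | k + 1, m => go f k (iter f 56 (missing m) m)

theorem check_all : ∀ (s : Bool) (a b c : Fin 6), go (fr s (rr a b c)) 4 0 = true := by
  decide +kernel

theorem iter_spec (f : ℕ → ℕ) (c : ℕ) : ∀ (k x m : ℕ), (iter f k x m).testBit c = true →
    m.testBit c = true ∨ ∃ i, f^[i] x = c := by
  intro k
  induction k with
  | zero => intro x m h; exact Or.inl h
  | succ k ih =>
    intro x m h
    rw [iter] at h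
    cases hx : m.testBit x with
    | true => rw [hx, cond_true] at h; exact Or.inl h
    | false =>
    rw [hx, cond_false] at h
    rcases ih _ _ h with h | ⟨i, hi⟩
    · rw [Nat.testBit_or, Bool.or_eq_true] at h
      rcases h with h | h
      · exact Or.inl h
      · right
        rw [Nat.one_shiftLeft, Nat.testBit_two_pow] at h
        exact ⟨0, by simpa using h⟩
    · exact Or.inr ⟨i + 1, by rw [Function.iterate_succ_apply]; exact hi⟩

theorem missing_used (m : ℕ) : full.testBit (missing m) = true := by
  unfold missing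
  cases h : (List.range 56).find? (fun i => full.testBit i && !m.testBit i) with
  | none => decide
  | some i =>
    have := List.find?_some h
    simp only [Bool.and_eq_true] at this
    exact this.1

theorem go_spec (f : ℕ → ℕ) : ∀ (k m : ℕ), go f k m = true →
    ∃ reps : Fin k → ℕ, (∀ i, full.testBit (reps i) = true) ∧
      ∀ c, full.testBit c = true → m.testBit c = true ∨ ∃ i n, f^[n] (reps i) = c := by
  intro k
  induction k with
  | zero =>
    intro m h
    refine ⟨fun i => i.elim0, fun i => i.elim0, ?_⟩
    intro c hc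
    left
    simp only [go, beq_iff_eq] at h
    rw [← h, Nat.testBit_and, Bool.and_eq_true] at hc
    exact hc.2
  | succ k ih =>
    intro m h
    obtain ⟨reps, h1, h2⟩ := ih _ h
    refine ⟨Fin.cons (missing m) reps, ?_, ?_⟩
    · intro i
      refine Fin.cases ?_ ?_ i
      · simpa using missing_used m
      · intro j; simpa using h1 j
    · intro c hc
      rcases h2 c hc with h3 | ⟨i, n, hn⟩
      · rcases iter_spec f c _ _ _ h3 with h3 | ⟨n, hn⟩
        · exact Or.inl h3
        · exact Or.inr ⟨0, n, by simpa using hn⟩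
      · exact Or.inr ⟨i.succ, n, by simpa using hn⟩

/-- The codes in use are closed under the reduced face permutation. -/
theorem used_closed_aux : ∀ (s : Bool) (a : Fin 6), ∀ x : Fin 56, full.testBit x.val = true →
    full.testBit (fr s (fun _ => a.val) x.val) = true := by
  decide +kernel

theorem sr_const (s : Bool) (r : ℕ → ℕ) (c : ℕ) :
    sr s r c = sr s (fun _ => r ((c - 42) % 7 % 3)) c := by
  unfold sr
  split_ifs <;> rfl

theorem used_closed (s : Bool) (a b c : Fin 6) (x : Fin 56) (h : full.testBit x.val = true) :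
    full.testBit (fr s (rr a b c) x.val) = true := by
  rw [fr, sr_const]
  have hr : ∃ d : Fin 6, rr a b c ((ar x.val - 42) % 7 % 3) = d.val := by
    unfold rr
    split_ifs
    · exact ⟨a, rfl⟩
    · exact ⟨b, rfl⟩
    · exact ⟨c, rfl⟩
  obtain ⟨d, hd⟩ := hr
  have h2 := used_closed_aux s d x h
  rw [fr] at h2
  rw [hd]
  exact h2

theorem used_lt {x : ℕ} (h : full.testBit x = true) : x < 56 := by
  by_contra hx
  have : full < 2 ^ x := lt_of_lt_of_le (by decide) (Nat.pow_le_pow_right (by norm_num)
    (not_lt.1 hx))
  rw [Nat.testBit_lt_two_pow this] at h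
  exact absurd h (by simp)

/-- A function constant along the reduced faces and zero at four suitable codes vanishes. -/
theorem check_main (s : Bool) (a b c : Fin 6) :
    ∃ reps : Fin 4 → ℕ, ∀ g : ℕ → ZMod 2,
      (∀ x, full.testBit x = true → g (fr s (rr a b c) x) = g x) → (∀ i, g (reps i) = 0) →
      ∀ x, full.testBit x = true → g x = 0 := by
  obtain ⟨reps, h1, h2⟩ := go_spec _ _ _ (check_all s a b c)
  refine ⟨reps, ?_⟩
  intro g hg h0 x hx
  rcases h2 x hx with h | ⟨i, n, hn⟩
  · simp at h
  · have key : ∀ n, full.testBit ((fr s (rr a b c))^[n] (reps i)) = true ∧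
        g ((fr s (rr a b c))^[n] (reps i)) = 0 := by
      intro n
      induction n with
      | zero => exact ⟨h1 i, h0 i⟩
      | succ n ih =>
        rw [Function.iterate_succ_apply']
        have hlt := used_lt ih.1
        refine ⟨used_closed s a b c ⟨_, hlt⟩ ih.1, ?_⟩
        rw [hg _ ih.1]
        exact ih.2
    rw [← hn]
    exact (key n).2

end Pool.Agent.MP_c359ba_co
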