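import Mathlib

set_option autoImplicit false

/-!
# Counting cycles of a permutation
-/

namespace Pool.Agent.MP_c359ba_co

open Equiv Equiv.Perm

theorem orbits_bound {D : Type} [Fintype D] (φ : Perm D)
    (h1 : ∀ d, φ d ≠ d) (h2 : ∀ d, φ (φ d) ≠ d) (h3 : ∀ d, φ (φ (φ d)) ≠ d) :
    20 * Nat.card (Quotient (SameCycle.setoid φ)) +
      Nat.card {d : D // φ (φ (φ (φ d))) ≠ d} ≤ 5 * Nat.card D := by
  classical
  have : Fintype (Quotient (SameCycle.setoid φ)) := Fintype.ofFinite _
  set mk : D → Quotient (SameCycle.setoid φ) := fun d => Quotient.mk _ d with hmk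
  have hmk_eq : ∀ a b : D, mk a = mk b ↔ SameCycle φ a b := by
    intro a b
    exact Quotient.eq (r := SameCycle.setoid φ)
  have hcardD : Fintype.card D = ∑ q : Quotient (SameCycle.setoid φ),
      (Finset.univ.filter (fun d => mk d = q)).card := by
    rw [← Finset.card_univ]
    exact Finset.card_eq_sum_card_fiberwise (fun _ _ => Finset.mem_coe.2 (Finset.mem_univ _))
  have hcardB : Fintype.card {d : D // φ (φ (φ (φ d))) ≠ d} =
      ∑ q : Quotient (SameCycle.setoid φ),
      ((Finset.univ.filter (fun d => φ (φ (φ (φ d))) ≠ d)).filter (fun d => mk d = q)).card := by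
    rw [Fintype.card_subtype]
    exact Finset.card_eq_sum_card_fiberwise (fun _ _ => Finset.mem_coe.2 (Finset.mem_univ _))
  have key : ∀ q : Quotient (SameCycle.setoid φ),
      20 + ((Finset.univ.filter (fun d => φ (φ (φ (φ d))) ≠ d)).filter (fun d => mk d = q)).card
        ≤ 5 * (Finset.univ.filter (fun d => mk d = q)).card := by
    intro q
    obtain ⟨d, rfl⟩ : ∃ d, mk d = q := Quotient.exists_rep q
    have hsc : ∀ n : ℕ, mk ((φ ^ n) d) = mk d := by
      intro n
      rw [hmk_eq]
      exact (SameCycle.refl φ d).pow_left
    have m1 : mk (φ d) = mk d := by simpa using hsc 1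
    have m2 : mk (φ (φ d)) = mk d := by simpa [pow_succ] using hsc 2
    have m3 : mk (φ (φ (φ d))) = mk d := by simpa [pow_succ] using hsc 3
    have m4 : mk (φ (φ (φ (φ d)))) = mk d := by simpa [pow_succ] using hsc 4
    by_cases h4 : φ (φ (φ (φ d))) = d
    · have hB : ((Finset.univ.filter (fun d => φ (φ (φ (φ d))) ≠ d)).filter
          (fun e => mk e = mk d)) = ∅ := by
        rw [Finset.filter_filter]
        refine Finset.filter_eq_empty_iff.2 ?_
        rintro e - ⟨he, hed⟩
        rw [hmk_eq] at hed
        obtain ⟨n, hn⟩ := hed.symm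
        apply he
        have : φ (φ (φ (φ e))) = (φ ^ (4 : ℤ)) e := by
          change _ = (φ ^ (4 : ℕ)) e
          simp [pow_succ]
        rw [this, ← hn, ← Perm.mul_apply, ← zpow_add, add_comm, zpow_add, Perm.mul_apply]
        congr 1
      rw [hB, Finset.card_empty]
      have : ({d, φ d, φ (φ d), φ (φ (φ d))} : Finset D) ⊆
          Finset.univ.filter (fun e => mk e = mk d) := by
        intro x hx
        simp only [Finset.mem_insert, Finset.mem_singleton] at hx
        simp only [Finset.mem_filter, Finset.mem_univ, true_and]
        rcases hx with rfl | rfl | rfl | rfl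
        · rfl
        · exact m1
        · exact m2
        · exact m3
      have hc := Finset.card_le_card this
      have : ({d, φ d, φ (φ d), φ (φ (φ d))} : Finset D).card = 4 := by
        rw [Finset.card_insert_of_notMem, Finset.card_insert_of_notMem,
          Finset.card_insert_of_notMem, Finset.card_singleton]
        · simp only [Finset.mem_singleton]
          exact fun h => h1 _ h.symm
        · simp only [Finset.mem_insert, Finset.mem_singleton, not_or]
          exact ⟨fun h => h1 _ h.symm, fun h => h2 _ h.symm⟩
        · simp only [Finset.mem_insert, Finset.mem_singleton, not_or]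
          exact ⟨fun h => h1 _ h.symm, fun h => h2 _ h.symm, fun h => h3 _ h.symm⟩
      omega
    · have hle : ((Finset.univ.filter (fun d => φ (φ (φ (φ d))) ≠ d)).filter
          (fun e => mk e = mk d)).card ≤ (Finset.univ.filter (fun e => mk e = mk d)).card := by
        apply Finset.card_le_card
        rw [Finset.filter_filter]
        intro x hx
        simp only [Finset.mem_filter, Finset.mem_univ, true_and] at hx ⊢
        exact hx.2
      have : ({d, φ d, φ (φ d), φ (φ (φ d)), φ (φ (φ (φ d)))} : Finset D) ⊆
          Finset.univ.filter (fun e => mk e = mk d) := by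
        intro x hx
        simp only [Finset.mem_insert, Finset.mem_singleton] at hx
        simp only [Finset.mem_filter, Finset.mem_univ, true_and]
        rcases hx with rfl | rfl | rfl | rfl | rfl
        · rfl
        · exact m1
        · exact m2
        · exact m3
        · exact m4
      have hc := Finset.card_le_card this
      have : ({d, φ d, φ (φ d), φ (φ (φ d)), φ (φ (φ (φ d)))} : Finset D).card = 5 := by
        rw [Finset.card_insert_of_notMem, Finset.card_insert_of_notMem,
          Finset.card_insert_of_notMem, Finset.card_insert_of_notMem, Finset.card_singleton]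
        · simp only [Finset.mem_singleton]
          exact fun h => h1 _ h.symm
        · simp only [Finset.mem_insert, Finset.mem_singleton, not_or]
          exact ⟨fun h => h1 _ h.symm, fun h => h2 _ h.symm⟩
        · simp only [Finset.mem_insert, Finset.mem_singleton, not_or]
          exact ⟨fun h => h1 _ h.symm, fun h => h2 _ h.symm, fun h => h3 _ h.symm⟩
        · simp only [Finset.mem_insert, Finset.mem_singleton, not_or]
          exact ⟨fun h => h1 _ h.symm, fun h => h2 _ h.symm, fun h => h3 _ h.symm,
            fun h => h4 h.symm⟩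
      omega
  have hsum := Finset.sum_le_sum (fun q (_ : q ∈ (Finset.univ :
    Finset (Quotient (SameCycle.setoid φ)))) => key q)
  rw [Finset.sum_add_distrib, ← Finset.mul_sum, ← hcardD, ← hcardB, Finset.sum_const,
    Finset.card_univ, smul_eq_mul] at hsum
  rw [Nat.card_eq_fintype_card, Nat.card_eq_fintype_card, Nat.card_eq_fintype_card]
  omega

/-- If a function constant on the cycles of `φ` is determined by the values of the linear map
`T`, there are at most as many cycles as coordinates of `T`. -/
theorem card_orbits_le {D ι : Type} [Fintype D] [Fintype ι] (φ : Perm D)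
    (T : (D → ZMod 2) →ₗ[ZMod 2] (ι → ZMod 2))
    (hT : ∀ f : D → ZMod 2, (∀ d, f (φ d) = f d) → T f = 0 → f = 0) :
    Nat.card (Quotient (SameCycle.setoid φ)) ≤ Fintype.card ι := by
  classical
  have : Fintype (Quotient (SameCycle.setoid φ)) := Fintype.ofFinite _
  have : Fact (Nat.Prime 2) := ⟨Nat.prime_two⟩
  let L : (Quotient (SameCycle.setoid φ) → ZMod 2) →ₗ[ZMod 2] (D → ZMod 2) :=
    LinearMap.funLeft (ZMod 2) (ZMod 2) (fun d => Quotient.mk _ d)
  have hinj : Function.Injective (T ∘ₗ L) := by
    rw [← LinearMap.ker_eq_bot, LinearMap.ker_eq_bot']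
    intro g hg
    have h0 : L g = 0 := by
      apply hT
      · intro d
        change g (Quotient.mk _ (φ d)) = g (Quotient.mk _ d)
        congr 1
        apply Quotient.sound
        exact ((SameCycle.refl φ d).apply_left : SameCycle φ (φ d) d)
      · exact hg
    funext q
    obtain ⟨d, rfl⟩ := Quotient.exists_rep q
    exact congrFun h0 d
  have := LinearMap.finrank_le_finrank_of_injective hinj
  rw [Module.finrank_pi, Module.finrank_pi] at this
  rwa [Nat.card_eq_fintype_card]

end Pool.Agent.MP_c359ba_co
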