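import Mathlib

set_option autoImplicit false

/-!
# The graph

A cylinder grid with `N` concentric cycles of length `14`, three further vertices of degree four
attached to the outermost cycle and one chord of the outermost cycle.
-/

namespace Pool.Agent.MP_c359ba_co

/-- Vertices: grid points (level, position) and three stars. -/
abbrev Vt (N : ℕ) : Type := (Fin N × Fin 14) ⊕ Fin 3

/-- Adjacency. -/
def adjP (N : ℕ) : Vt N → Vt N → Prop
  | Sum.inl (j, p), Sum.inl (k, q) =>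
      (j = k ∧ (q = p + 1 ∨ p = q + 1)) ∨ (p = q ∧ (k.val = j.val + 1 ∨ j.val = k.val + 1)) ∨
      (j.val + 1 = N ∧ k.val + 1 = N ∧ ((p = 6 ∧ q = 13) ∨ (p = 13 ∧ q = 6)))
  | Sum.inl (j, p), Sum.inr s => j.val + 1 = N ∧ p.val % 7 ≠ 6 ∧ p.val % 7 % 3 = s.val
  | Sum.inr s, Sum.inl (j, p) => j.val + 1 = N ∧ p.val % 7 ≠ 6 ∧ p.val % 7 % 3 = s.val
  | Sum.inr _, Sum.inr _ => False

theorem adjP_symm (N : ℕ) : ∀ a b, adjP N a b → adjP N b a := by
  rintro (⟨j, p⟩ | s) (⟨k, q⟩ | t) h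
  · simp only [adjP] at h ⊢
    rcases h with ⟨h1, h2⟩ | ⟨h1, h2⟩ | ⟨h1, h2, h3⟩
    · exact Or.inl ⟨h1.symm, h2.symm⟩
    · exact Or.inr (Or.inl ⟨h1.symm, h2.symm⟩)
    · refine Or.inr (Or.inr ⟨h2, h1, ?_⟩)
      rcases h3 with ⟨h3, h4⟩ | ⟨h3, h4⟩
      · exact Or.inr ⟨h4, h3⟩
      · exact Or.inl ⟨h4, h3⟩
  · exact h
  · exact h
  · exact h

theorem fin14_ne_succ : ∀ p : Fin 14, p ≠ p + 1 := by decide

theorem adjP_irrefl (N : ℕ) : ∀ a, ¬ adjP N a a := by
  rintro (⟨j, p⟩ | s) h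
  · simp only [adjP] at h
    rcases h with ⟨-, h2⟩ | ⟨-, h2⟩ | ⟨-, -, h3⟩
    · rcases h2 with h2 | h2 <;> exact fin14_ne_succ p h2
    · omega
    · rcases h3 with ⟨h3, h4⟩ | ⟨h3, h4⟩
      · rw [h3] at h4; exact absurd h4 (by decide)
      · rw [h3] at h4; exact absurd h4 (by decide)
  · exact h

/-- The graph. -/
def Gr (N : ℕ) : SimpleGraph (Vt N) where
  Adj := adjP N
  symm := ⟨fun a b h => adjP_symm N a b h⟩
  loopless := ⟨fun a h => adjP_irrefl N a h⟩

/-- The grid vertex at level `j` and position `p` (junk value for `j ≥ N`). -/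
def vx (N : ℕ) (j : ℕ) (p : Fin 14) : Vt N := if h : j < N then Sum.inl (⟨j, h⟩, p) else Sum.inr 0

/-- The star of position `p`. -/
def stOf (p : Fin 14) : Fin 3 := ⟨p.val % 7 % 3, Nat.mod_lt _ (by norm_num)⟩

variable {N : ℕ}

theorem vx_of_lt {j : ℕ} (h : j < N) (p : Fin 14) : vx N j p = Sum.inl (⟨j, h⟩, p) := by
  simp [vx, h]

theorem vx_inj {j k : ℕ} {p q : Fin 14} (hj : j < N) (hk : k < N) (h : vx N j p = vx N k q) :
    j = k ∧ p = q := by
  rw [vx_of_lt hj, vx_of_lt hk] at h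
  simpa using h

theorem adj_hor {j : ℕ} (hj : j < N) (p : Fin 14) : (Gr N).Adj (vx N j p) (vx N j (p + 1)) := by
  rw [vx_of_lt hj, vx_of_lt hj]
  exact Or.inl ⟨rfl, Or.inl rfl⟩

theorem adj_hor' {j : ℕ} (hj : j < N) (p : Fin 14) : (Gr N).Adj (vx N j p) (vx N j (p - 1)) := by
  have := adj_hor hj (p - 1)
  rw [sub_add_cancel] at this
  exact this.symm

theorem adj_up {j : ℕ} (hj : j + 1 < N) (p : Fin 14) : (Gr N).Adj (vx N j p) (vx N (j + 1) p) := by
  rw [vx_of_lt (by omega), vx_of_lt hj]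
  exact Or.inr (Or.inl ⟨rfl, Or.inl rfl⟩)

theorem adj_leg (hN : 0 < N) {p : Fin 14} (hp : p.val % 7 ≠ 6) :
    (Gr N).Adj (vx N (N - 1) p) (Sum.inr (stOf p)) := by
  rw [vx_of_lt (by omega)]
  exact ⟨by simp only; omega, hp, rfl⟩

theorem adj_chord (hN : 0 < N) : (Gr N).Adj (vx N (N - 1) 6) (vx N (N - 1) 13) := by
  rw [vx_of_lt (by omega), vx_of_lt (by omega)]
  exact Or.inr (Or.inr ⟨by simp only; omega, by simp only; omega, Or.inl ⟨rfl, rfl⟩⟩)

/-- The neighbours of an interior grid vertex. -/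
theorem nbr_interior {j : ℕ} (h1 : 1 ≤ j) (h2 : j + 1 < N) {p : Fin 14} {w : Vt N}
    (h : (Gr N).Adj (vx N j p) w) :
    w = vx N j (p + 1) ∨ w = vx N j (p - 1) ∨ w = vx N (j + 1) p ∨ w = vx N (j - 1) p := by
  rw [vx_of_lt (by omega)] at h
  rcases w with ⟨k, q⟩ | t
  · rcases h with ⟨h3, h4⟩ | ⟨h3, h4⟩ | ⟨h3, h4, h5⟩
    · rcases h4 with h4 | h4
      · left; rw [vx_of_lt (by omega), h4, ← h3]
      · right; left
        rw [vx_of_lt (by omega), h4, ← h3, add_sub_cancel_right]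
    · rcases h4 with h4 | h4
      · right; right; left
        rw [vx_of_lt h2]
        congr 2
        · exact Fin.ext h4
        · exact h3.symm
      · right; right; right
        rw [vx_of_lt (by omega)]
        congr 2
        · refine Fin.ext ?_
          simp only at h4 ⊢
          omega
        · exact h3.symm
    · simp only at h3; omega
  · obtain ⟨h3, -⟩ := h
    simp only at h3; omega

/-- Parity colouring of the grid. -/
def par (N : ℕ) : Vt N → ℕ
  | Sum.inl (j, p) => (j.val + p.val) % 2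
  | Sum.inr _ => 0

theorem fin14_succ_par : ∀ p : Fin 14, (p + 1).val % 2 = (p.val + 1) % 2 := by decide

theorem par_ne {a b : Fin N × Fin 14} (h : (Gr N).Adj (Sum.inl a) (Sum.inl b)) :
    par N (Sum.inl a) ≠ par N (Sum.inl b) := by
  obtain ⟨j, p⟩ := a
  obtain ⟨k, q⟩ := b
  simp only [par]
  rcases h with ⟨h3, h4⟩ | ⟨h3, h4⟩ | ⟨h3, h4, h5⟩
  · subst h3
    rcases h4 with h4 | h4
    · have := fin14_succ_par p; rw [h4]; omega
    · have := fin14_succ_par q; rw [h4]; omega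
  · subst h3; omega
  · rcases h5 with ⟨h5, h6⟩ | ⟨h5, h6⟩
    · subst h5; subst h6
      have e1 : (6 : Fin 14).val = 6 := rfl
      have e2 : (13 : Fin 14).val = 13 := rfl
      omega
    · subst h5; subst h6
      have e1 : (6 : Fin 14).val = 6 := rfl
      have e2 : (13 : Fin 14).val = 13 := rfl
      omega

theorem fin14_leg_indep : ∀ p q : Fin 14, p.val % 7 ≠ 6 → q.val % 7 ≠ 6 →
    p.val % 7 % 3 = q.val % 7 % 3 → q ≠ p + 1 := by decide

theorem leg_not_adj {j k : Fin N} {p q : Fin 14} {s : Fin 3}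
    (h1 : (Gr N).Adj (Sum.inl (j, p)) (Sum.inr s)) (h2 : (Gr N).Adj (Sum.inl (k, q)) (Sum.inr s)) :
    ¬ (Gr N).Adj (Sum.inl (j, p)) (Sum.inl (k, q)) := by
  rintro (⟨h3, h4⟩ | ⟨h3, h4⟩ | ⟨h3, h4, h5⟩)
  · rcases h4 with h4 | h4
    · exact fin14_leg_indep p q h1.2.1 h2.2.1 (by rw [h1.2.2, h2.2.2]) h4
    · exact fin14_leg_indep q p h2.2.1 h1.2.1 (by rw [h1.2.2, h2.2.2]) h4
  · have := h1.1; have := h2.1; omega
  · rcases h5 with ⟨h5, h6⟩ | ⟨h5, h6⟩
    · subst h5; exact h1.2.1 rfl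
    · subst h5; exact h1.2.1 rfl

/-- The graph has no triangle. -/
theorem no_triangle {a b c : Vt N} (h1 : (Gr N).Adj a b) (h2 : (Gr N).Adj b c)
    (h3 : (Gr N).Adj c a) : False := by
  rcases a with a | s
  · rcases b with b | t
    · rcases c with c | u
      · have e1 := par_ne h1
        have e2 := par_ne h2
        have e3 := par_ne h3
        have l1 : par N (Sum.inl a) < 2 := by obtain ⟨x, y⟩ := a; simp only [par]; omega
        have l2 : par N (Sum.inl b) < 2 := by obtain ⟨x, y⟩ := b; simp only [par]; omega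
        have l3 : par N (Sum.inl c) < 2 := by obtain ⟨x, y⟩ := c; simp only [par]; omega
        omega
      · exact leg_not_adj (j := a.1) (k := b.1) h3.symm h2 h1
    · rcases c with c | u
      · exact leg_not_adj (j := a.1) (k := c.1) h1 h2.symm h3.symm
      · exact h2
  · rcases b with b | t
    · rcases c with c | u
      · exact leg_not_adj (j := b.1) (k := c.1) h1.symm h3 h2
      · exact h3
    · exact h1

end Pool.Agent.MP_c359ba_co
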