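import Pool.Agent.MP_c359ba_co.Defs
import Pool.Agent.MP_c359ba_co.Graph
import Pool.Agent.MP_c359ba_co.Count

set_option autoImplicit false

/-!
# Embeddings of the graph: basic facts and the level on which everything is flat
-/

namespace Pool.Agent.MP_c359ba_co

open Equiv Equiv.Perm

/-- A rotation system of the graph `Gr N`, with abstract darts. -/
structure Emb (N : ℕ) where
  D : Type
  fin : Fintype D
  ne : Nonempty D
  σ : Perm D
  α : Perm D
  base : D → Vt N
  α_α : ∀ d, α (α d) = d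
  adj : ∀ d, (Gr N).Adj (base d) (base (α d))
  ext : ∀ d e, base d = base e → base (α d) = base (α e) → d = e
  ex : ∀ u v, (Gr N).Adj u v → ∃ d, base d = u ∧ base (α d) = v
  same : ∀ d e, SameCycle σ d e ↔ base d = base e

namespace Emb

variable {N : ℕ} (M : Emb N)

theorem base_σ (d : M.D) : M.base (M.σ d) = M.base d :=
  (M.same _ _).1 ((SameCycle.refl M.σ d).apply_left : SameCycle M.σ (M.σ d) d)

/-- Induction along the rotation at a vertex. -/
theorem rot_induct (P : M.D → Prop) (h : ∀ d, P d → P (M.σ d)) {d e : M.D} (hd : P d)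
    (hde : M.base d = M.base e) : P e := by
  have := M.fin
  obtain ⟨n, hn⟩ := ((M.same d e).2 hde).exists_nat_pow_eq
  have key : ∀ n : ℕ, P ((M.σ ^ n) d) := by
    intro n
    induction n with
    | zero => simpa using hd
    | succ n ih => rw [pow_succ', Perm.mul_apply]; exact h _ ih
  rw [← hn]
  exact key n

theorem σ_ne {d e : M.D} (h : M.base e = M.base d) (hne : e ≠ d) : M.σ d ≠ d := by
  intro hd
  exact hne (M.rot_induct (fun x => x = d) (fun x hx => by rw [hx, hd]) rfl h.symm)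

theorem two_cycle {d e f : M.D} (h1 : M.σ d = e) (h2 : M.σ e = d) (hf : M.base f = M.base d) :
    f = d ∨ f = e := by
  refine M.rot_induct (fun x => x = d ∨ x = e) ?_ (Or.inl rfl) hf.symm
  rintro x (rfl | rfl)
  · exact Or.inr h1
  · exact Or.inl h2

/-- The dart from `u` to `v`. -/
noncomputable def dd (u v : Vt N) : M.D :=
  @Classical.epsilon M.D M.ne (fun d => M.base d = u ∧ M.base (M.α d) = v)

variable {M}

theorem dd_spec {u v : Vt N} (h : (Gr N).Adj u v) :
    M.base (M.dd u v) = u ∧ M.base (M.α (M.dd u v)) = v :=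
  Classical.epsilon_spec (p := fun d => M.base d = u ∧ M.base (M.α d) = v) (M.ex u v h)

theorem base_dd {u v : Vt N} (h : (Gr N).Adj u v) : M.base (M.dd u v) = u := (dd_spec h).1

theorem tip_dd {u v : Vt N} (h : (Gr N).Adj u v) : M.base (M.α (M.dd u v)) = v := (dd_spec h).2

theorem eq_dd {u v : Vt N} {d : M.D} (h1 : M.base d = u) (h2 : M.base (M.α d) = v) :
    d = M.dd u v := by
  have h : (Gr N).Adj u v := by rw [← h1, ← h2]; exact M.adj d
  exact M.ext _ _ (by rw [h1, base_dd h]) (by rw [h2, tip_dd h])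

theorem α_dd {u v : Vt N} (h : (Gr N).Adj u v) : M.α (M.dd u v) = M.dd v u :=
  eq_dd (tip_dd h) (by rw [M.α_α]; exact base_dd h)

theorem dd_inj {u v u' v' : Vt N} (h : (Gr N).Adj u v) (h' : (Gr N).Adj u' v')
    (he : M.dd u v = M.dd u' v') : u = u' ∧ v = v' := by
  have h1 := base_dd (M := M) h
  have h2 := tip_dd (M := M) h
  rw [he] at h1 h2
  rw [base_dd h'] at h1
  rw [tip_dd h'] at h2
  exact ⟨h1.symm, h2.symm⟩

theorem base_ne (d : M.D) : M.base (M.α d) ≠ M.base d := fun h => by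
  have := M.adj d
  rw [h] at this
  exact (Gr N).irrefl this

theorem fin14_pm : ∀ p : Fin 14, p + 1 ≠ p - 1 := by decide

theorem stOf_self : ∀ s : Fin 3, stOf ⟨s.val, by omega⟩ = s ∧ (s.val % 7 ≠ 6) ∧
    stOf ⟨s.val + 3, by omega⟩ = s ∧ (s.val + 3) % 7 ≠ 6 := by decide

/-- Every vertex has at least two neighbours. -/
theorem two_nbrs (hN : 2 ≤ N) (u : Vt N) :
    ∃ v w, v ≠ w ∧ (Gr N).Adj u v ∧ (Gr N).Adj u w := by
  rcases u with ⟨j, p⟩ | s
  · refine ⟨vx N j.val (p + 1), vx N j.val (p - 1), ?_, ?_, ?_⟩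
    · intro h
      exact fin14_pm p (vx_inj j.2 j.2 h).2
    · have := adj_hor j.2 p
      rwa [vx_of_lt j.2 p] at this
    · have := adj_hor' j.2 p
      rwa [vx_of_lt j.2 p] at this
  · obtain ⟨h1, h2, h3, h4⟩ := stOf_self s
    refine ⟨vx N (N - 1) ⟨s.val, by omega⟩, vx N (N - 1) ⟨s.val + 3, by omega⟩, ?_, ?_, ?_⟩
    · intro h
      have := (vx_inj (by omega) (by omega) h).2
      simp only [Fin.mk.injEq] at this
      omega
    · have := adj_leg (N := N) (by omega) (p := ⟨s.val, by omega⟩) h2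
      rw [h1] at this
      exact this.symm
    · have := adj_leg (N := N) (by omega) (p := ⟨s.val + 3, by omega⟩) h4
      rw [h3] at this
      exact this.symm

theorem σ_ne' (hN : 2 ≤ N) (d : M.D) : M.σ d ≠ d := by
  obtain ⟨v, w, hvw, hv, hw⟩ := two_nbrs hN (M.base d)
  by_cases h : M.base (M.α d) = v
  · refine M.σ_ne (e := M.dd (M.base d) w) (base_dd hw) ?_
    intro he
    apply hvw
    rw [← h, ← he]
    have := tip_dd (M := M) hw
    rw [this]
  · refine M.σ_ne (e := M.dd (M.base d) v) (base_dd hv) ?_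
    intro he
    apply h
    rw [← he]
    exact tip_dd hv

variable (M)

/-- The face permutation. -/
def φ : Perm M.D := M.σ * M.α

theorem φ_apply (d : M.D) : M.φ d = M.σ (M.α d) := rfl

theorem base_φ (d : M.D) : M.base (M.φ d) = M.base (M.α d) := M.base_σ _

theorem φ1 (d : M.D) : M.φ d ≠ d := by
  intro h
  have := M.base_φ d
  rw [h] at this
  exact base_ne d this.symm

theorem φ2 (hN : 2 ≤ N) (d : M.D) : M.φ (M.φ d) ≠ d := by
  intro h
  have h1 := M.base_φ (M.φ d)
  rw [h] at h1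
  have h2 := M.base_φ d
  have : M.φ d = M.α d := M.ext _ _ h2 (by rw [← h1, M.α_α])
  exact σ_ne' hN (M.α d) this

theorem φ3 (d : M.D) : M.φ (M.φ (M.φ d)) ≠ d := by
  intro h
  have h1 := M.base_φ (M.φ (M.φ d))
  rw [h] at h1
  have h2 := M.base_φ (M.φ d)
  have h3 := M.base_φ d
  have a1 := M.adj d
  have a2 := M.adj (M.φ d)
  have a3 := M.adj (M.φ (M.φ d))
  rw [h3, ← h2] at a2
  rw [← h1] at a3
  exact no_triangle a1 a2 a3

end Emb

end Pool.Agent.MP_c359ba_co
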