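import Pool.Agent.MP_c359ba_co.Lower2

set_option autoImplicit false

/-!
# The graph has no embedding on the surface of genus three
-/

namespace Pool.Agent.MP_c359ba_co

open Equiv Equiv.Perm

variable {N : ℕ}

/-- The rotation system of an embedding. -/
noncomputable def embOf (hN : 2 ≤ N) (M : Drawing (Gr N)) (he : M.IsEmbedding) : Emb N where
  D := M.D
  fin := M.fin
  ne := by
    obtain ⟨d, -⟩ := (M.vert_bij ⟨(vx N 0 0, vx N 0 (0 + 1)), adj_hor (by omega) 0⟩).exists
    exact ⟨d⟩
  σ := M.σ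
  α := M.α
  base := fun d => (M.lab d).fst
  α_α := M.α_α
  adj := fun d => by
    rw [M.lab_α]
    exact (M.lab d).adj
  ext := fun d e h1 h2 => by
    have h3 : M.lab d = M.lab e := by
      rw [M.lab_α, M.lab_α] at h2
      exact SimpleGraph.Dart.ext _ _ (Prod.ext h1 h2)
    exact (M.vert_bij (M.lab e)).unique ⟨he d, h3⟩ ⟨he e, rfl⟩
  ex := fun u v h => by
    obtain ⟨d, -, hd⟩ := (M.vert_bij ⟨(u, v), h⟩).exists
    refine ⟨d, ?_, ?_⟩
    · rw [hd]
    · rw [M.lab_α, hd]; rfl
  same := fun d e => M.vert_same d e (he d) (he e)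

namespace Emb

variable {M : Emb N}

/-- An explicit family of pairwise different darts. -/
noncomputable def fam (M : Emb N) : (Fin N × Fin 14 × Bool) ⊕ (Fin (N - 1) × Fin 14 × Bool) ⊕
    Fin 14 ⊕ (Fin 3 × Fin 4) → M.D
  | Sum.inl (j, p, s) => M.H s j.val p
  | Sum.inr (Sum.inl (j, p, true)) => M.U j.val p
  | Sum.inr (Sum.inl (j, p, false)) => M.W j.val p
  | Sum.inr (Sum.inr (Sum.inl p)) => M.T p
  | Sum.inr (Sum.inr (Sum.inr (j, k))) => M.S (posF j k)

theorem vx_ne_inr {j : ℕ} (hj : j < N) {p : Fin 14} {s : Fin 3} :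
    vx N j p ≠ Sum.inr s := by
  rw [vx_of_lt hj]; simp

theorem sh_ne : ∀ s, sh s 6 ≠ 13 ∧ sh s 13 ≠ 6 := by decide

theorem fam_HU {j k : ℕ} (hj : j < N) (hk : k + 1 < N) {s : Bool} {p q : Fin 14} :
    M.H s j p ≠ M.U k q := by
  intro h
  obtain ⟨h1, h2⟩ := dd_inj (adj_sh hj s p) (adj_up hk q) h
  have := (vx_inj hj (by omega) h1).1
  have := (vx_inj hj hk h2).1
  omega

theorem fam_HW {j k : ℕ} (hj : j < N) (hk : k + 1 < N) {s : Bool} {p q : Fin 14} :
    M.H s j p ≠ M.W k q := by
  intro h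
  obtain ⟨h1, h2⟩ := dd_inj (adj_sh hj s p) (adj_up hk q).symm h
  have := (vx_inj hj hk h1).1
  have := (vx_inj hj (by omega) h2).1
  omega

theorem fam_HT (hN : 2 ≤ N) {j : ℕ} (hj : j < N) {s : Bool} {p q : Fin 14} :
    M.H s j p ≠ M.T q := by
  intro h
  obtain ⟨h1, h2⟩ := dd_inj (adj_sh hj s p) (adj_top (by omega) q) h
  obtain ⟨-, rfl⟩ := vx_inj hj (by omega) h1
  unfold topEnd at h2
  split_ifs at h2 with h4 h5
  · have := (vx_inj hj (by omega) h2).2
    rw [h4] at this
    exact (sh_ne s).1 this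
  · have := (vx_inj hj (by omega) h2).2
    rw [h5] at this
    exact (sh_ne s).2 this
  · exact vx_ne_inr hj h2

theorem fam_UW {j k : ℕ} (hj : j + 1 < N) (hk : k + 1 < N) {p q : Fin 14} :
    M.U j p ≠ M.W k q := by
  intro h
  obtain ⟨h1, h2⟩ := dd_inj (adj_up hj p) (adj_up hk q).symm h
  have := (vx_inj (by omega) hk h1).1
  have := (vx_inj hj (by omega) h2).1
  omega

theorem fam_UT (hN : 2 ≤ N) {j : ℕ} (hj : j + 1 < N) {p q : Fin 14} : M.U j p ≠ M.T q := by
  intro h
  obtain ⟨h1, h2⟩ := dd_inj (adj_up hj p) (adj_top (by omega) q) h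
  have := (vx_inj (by omega) (by omega) h1).1
  omega

theorem fam_WT (hN : 2 ≤ N) {j : ℕ} (hj : j + 1 < N) {p q : Fin 14} : M.W j p ≠ M.T q := by
  intro h
  obtain ⟨h1, h2⟩ := dd_inj (adj_up hj p).symm (adj_top (by omega) q) h
  unfold topEnd at h2
  split_ifs at h2 with h4 h5
  · have := (vx_inj (by omega) (by omega) h2).1; omega
  · have := (vx_inj (by omega) (by omega) h2).1; omega
  · exact vx_ne_inr (by omega) h2

theorem not_S {d : M.D} {j : ℕ} {p q : Fin 14} (hN : 2 ≤ N) (hj : j < N)
    (hd : M.base d = vx N j p) (hq : q.val % 7 ≠ 6) : d ≠ M.S q := by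
  intro h
  rw [h, base_S (by omega) hq] at hd
  exact vx_ne_inr hj hd.symm

theorem fam_inj (hN : 2 ≤ N) : Function.Injective M.fam := by
  have ps : ∀ j k, (posF j k).val % 7 ≠ 6 := fun j k => (posF_props j k).1
  rintro (⟨j, p, s⟩ | ⟨j, p, b⟩ | p | ⟨j, k⟩) (⟨j', p', s'⟩ | ⟨j', p', b'⟩ | p' | ⟨j', k'⟩) h
  · obtain ⟨h1, -⟩ := dd_inj (adj_sh j.2 s p) (adj_sh j'.2 s' p') h
    obtain ⟨h3, rfl⟩ := vx_inj j.2 j'.2 h1
    have h3 := Fin.ext h3
    subst h3
    rw [H_inj j.2 h]
  · exfalso
    have := j.2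
    have := j'.2
    cases b'
    · exact fam_HW (by omega) (by omega) h
    · exact fam_HU (by omega) (by omega) h
  · exact absurd h (fam_HT hN j.2)
  · exact absurd h (not_S hN j.2 (base_H j.2 _ _) (ps _ _))
  · exfalso
    have := j.2
    have := j'.2
    cases b
    · exact fam_HW (by omega) (by omega) h.symm
    · exact fam_HU (by omega) (by omega) h.symm
  · have l1 := j.2
    have l2 := j'.2
    cases b <;> cases b'
    · obtain ⟨h1, -⟩ := dd_inj (adj_up (by omega) p).symm (adj_up (by omega) p').symm h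
      obtain ⟨h3, rfl⟩ := vx_inj (by omega) (by omega) h1
      have h3 : j = j' := Fin.ext (by omega)
      rw [h3]
    · exact absurd h.symm (fam_UW (by omega) (by omega))
    · exact absurd h (fam_UW (by omega) (by omega))
    · obtain ⟨h1, -⟩ := dd_inj (adj_up (by omega) p) (adj_up (by omega) p') h
      obtain ⟨h3, rfl⟩ := vx_inj (by omega) (by omega) h1
      have h3 : j = j' := Fin.ext (by omega)
      rw [h3]
  · exfalso
    have := j.2
    cases b
    · exact fam_WT hN (by omega) h
    · exact fam_UT hN (by omega) h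
  · exfalso
    have := j.2
    cases b
    · exact not_S hN (j := j.val + 1) (by omega) (base_W (by omega) _) (ps _ _) h
    · exact not_S hN (j := j.val) (by omega) (base_U (by omega) _) (ps _ _) h
  · exact absurd h.symm (fam_HT hN j'.2)
  · exfalso
    have := j'.2
    cases b'
    · exact fam_WT hN (by omega) h.symm
    · exact fam_UT hN (by omega) h.symm
  · obtain ⟨h1, -⟩ := dd_inj (adj_top (by omega) p) (adj_top (by omega) p') h
    obtain ⟨-, rfl⟩ := vx_inj (by omega) (by omega) h1
    rfl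
  · exact absurd h (not_S hN (by omega) (base_T (by omega) _) (ps _ _))
  · exact absurd h.symm (not_S hN j'.2 (base_H j'.2 _ _) (ps _ _))
  · exfalso
    have := j'.2
    cases b'
    · exact not_S hN (j := j'.val + 1) (by omega) (base_W (by omega) _) (ps _ _) h.symm
    · exact not_S hN (j := j'.val) (by omega) (base_U (by omega) _) (ps _ _) h.symm
  · exact absurd h.symm (not_S hN (by omega) (base_T (by omega) _) (ps _ _))
  · obtain ⟨h1, h2⟩ := dd_inj (adj_leg (by omega) (ps j k)).symm
      (adj_leg (by omega) (ps j' k')).symm h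
    have h3 := (vx_inj (by omega) (by omega) h2).2
    have h4 : j = j' := by
      have a1 := (posF_props j k).2.1
      have a2 := (posF_props j' k').2.1
      rw [← a1, ← a2, h3]
    subst h4
    rw [posF_inj j h3]

theorem card_D (hN : 2 ≤ N) : 56 * N - 2 ≤ Nat.card M.D := by
  classical
  have := M.fin
  have h := Fintype.card_le_of_injective _ (fam_inj (M := M) hN)
  simp only [Fintype.card_sum, Fintype.card_prod, Fintype.card_fin, Fintype.card_bool] at h
  rw [Nat.card_eq_fintype_card]
  omega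

theorem card_V : Nat.card (Quotient (SameCycle.setoid M.σ)) ≤ 14 * N + 3 := by
  classical
  have := M.fin
  have : Fintype (Quotient (SameCycle.setoid M.σ)) := Fintype.ofFinite _
  have h := Fintype.card_le_of_injective
    (fun q : Quotient (SameCycle.setoid M.σ) => Quotient.lift M.base
      (fun a b hab => (M.same a b).1 hab) q) (by
        intro q q'
        induction q using Quotient.inductionOn with | _ a =>
        induction q' using Quotient.inductionOn with | _ b =>
        intro h
        exact Quotient.sound ((M.same a b).2 h))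
  rw [Fintype.card_sum, Fintype.card_prod, Fintype.card_fin, Fintype.card_fin,
    Fintype.card_fin] at h
  rw [Nat.card_eq_fintype_card]
  omega

end Emb

theorem no_embedding (hN : 160 ≤ N) (M : Drawing (Gr N)) (hg : M.GenusLE 3)
    (he : M.IsEmbedding) : False := by
  set E := embOf (by omega) M he with hE
  have hD := Emb.card_D (M := E) (by omega)
  have hV := Emb.card_V (M := E)
  have hfin : Fintype E.D := M.fin
  have hF := orbits_bound E.φ E.φ1 (E.φ2 (by omega)) E.φ3
  have hg' : Nat.card E.D / 2 + 2 ≤ Nat.card (Quotient (SameCycle.setoid E.σ)) +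
      Nat.card (Quotient (SameCycle.setoid E.φ)) + 2 * 3 := hg
  have hB : Nat.card {d : E.D // E.φ (E.φ (E.φ (E.φ d))) ≠ d} ≤ 155 := by omega
  obtain ⟨i, h1, h2, s, hs⟩ := Emb.exists_flat hN hB
  have := Emb.faces_le (M := E) (by omega) h1 (by omega) hs M.conn
  omega

end Pool.Agent.MP_c359ba_co
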