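import Pool.Agent.MP_c359ba_co.Upper3
import Pool.Agent.MP_c359ba_co.NoEmb

set_option autoImplicit false

/-!
# The drawing on the surface of genus three, and the theorem
-/

namespace Pool.Agent.MP_c359ba_co

open Equiv Equiv.Perm

variable {N : ℕ}

/-- The drawing. -/
def drawing (hN : 2 ≤ N) : Drawing (Gr N) where
  D := DD N
  fin := inferInstance
  σ := sP hN
  α := aP
  α_ne := aF_ne
  α_α := aF_aF
  conn := conn_F hN
  cross := crF
  lab := labF hN
  pos := posFn
  lab_α := lab_aF hN
  cross_σ := cr_sF hN
  cross_four := four_F hN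
  cross_opp := opp_F hN
  cross_ne := ne_F hN
  vert_same := vert_same_F hN
  vert_bij := fun a => by
    obtain ⟨d, h1, h2⟩ := lab_ex hN a
    refine ⟨d, ⟨h1, h2⟩, ?_⟩
    rintro e ⟨h3, h4⟩
    exact lab_inj hN h3 h1 (by rw [h4, h2])
  pos_zero := pos0_F
  pos_succ := pos1_F hN

theorem card_le_quot {D X : Type} [Finite D] [Fintype X] (π : Perm D) (g : D → X)
    (h : ∀ d, g (π d) = g d) (hs : Function.Surjective g) :
    Fintype.card X ≤ Nat.card (Quotient (SameCycle.setoid π)) := by
  classical
  have : Fintype (Quotient (SameCycle.setoid π)) := Fintype.ofFinite _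
  rw [Nat.card_eq_fintype_card]
  have hinv : ∀ a b, SameCycle π a b → g a = g b := by
    intro a b hab
    obtain ⟨n, hn⟩ := hab.exists_nat_pow_eq
    have key : ∀ n : ℕ, g ((π ^ n) a) = g a := by
      intro n
      induction n with
      | zero => rfl
      | succ n ih => rw [pow_succ', Perm.mul_apply, h, ih]
    rw [← hn, key]
  apply Fintype.card_le_of_surjective
    (fun q : Quotient (SameCycle.setoid π) => Quotient.lift g hinv q)
  intro x
  obtain ⟨d, hd⟩ := hs x
  exact ⟨Quotient.mk _ d, hd⟩

/-- Vertex of a dart. -/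
def vF : DD N → (Fin N × Fin 14) ⊕ Fin 12
  | Sum.inl (_, j, p) => Sum.inl (j, p)
  | Sum.inr (Sum.inl (true, j, p)) => Sum.inl (⟨j.val, by omega⟩, p)
  | Sum.inr (Sum.inl (false, j, p)) => Sum.inl (⟨j.val + 1, by omega⟩, p)
  | Sum.inr (Sum.inr x) =>
      if h : x.val < 14 ∧ 0 < N then Sum.inl (⟨N - 1, by omega⟩, ⟨x.val, h.1⟩) else Sum.inr (vO x)

theorem vF_sF (hN : 2 ≤ N) (d : DD N) : vF (sF hN d) = vF d := by
  rcases d with ⟨s, j, p⟩ | ⟨b, j, p⟩ | x
  · have lj := j.2
    cases s
    · simp only [sF]
      split_ifs with hj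
      · rfl
      · have h1 : (tO p).val < 14 := p.2
        simp only [vF]
        rw [dif_pos ⟨h1, by omega⟩]
        congr 2
        exact Fin.ext (by simp only; omega)
    · simp only [sF]
      split_ifs with hj
      · simp only [vF]
        congr 2
        exact Fin.ext (by simp only; omega)
      · rfl
  · cases b <;> rfl
  · simp only [sF]
    split_ifs with h
    · simp only [vF]
      rw [dif_pos ⟨h, by omega⟩]
    · have h1 := (four_O x (by omega)).1
      simp only [vF]
      rw [dif_neg (by omega), dif_neg (by omega), vert_O x (by omega)]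

theorem vF_surj (hN : 2 ≤ N) : Function.Surjective (vF (N := N)) := by
  rintro (⟨j, p⟩ | y)
  · exact ⟨Sum.inl (true, j, p), rfl⟩
  · obtain ⟨x, hx, hy⟩ := vert_O_surj y
    refine ⟨Sum.inr (Sum.inr x), ?_⟩
    simp only [vF]
    rw [dif_neg (by omega), hy]

/-- Face of a dart. -/
def faF : DD N → (Fin (N - 1) × Fin 14) ⊕ Fin 14 ⊕ Unit
  | Sum.inl (true, j, p) =>
      if h : j.val < N - 1 then Sum.inl (⟨j.val, h⟩, p) else Sum.inr (Sum.inl (fO (tO (p + 1))))
  | Sum.inl (false, j, p) =>
      if h : 0 < j.val then Sum.inl (⟨j.val - 1, by omega⟩, p - 1) else Sum.inr (Sum.inr ())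
  | Sum.inr (Sum.inl (true, j, p)) => Sum.inl (j, p - 1)
  | Sum.inr (Sum.inl (false, j, p)) => Sum.inl (j, p)
  | Sum.inr (Sum.inr x) => Sum.inr (Sum.inl (fO x))

theorem faF_φ (hN : 2 ≤ N) (d : DD N) : faF (sF hN (aF d)) = faF d := by
  rcases d with ⟨s, j, p⟩ | ⟨b, j, p⟩ | x
  · have lj := j.2
    cases s
    · -- p → p - 1, arrives and turns to the lower vertical dart
      change faF (sF hN (Sum.inl (true, j, p - 1))) = _
      simp only [sF]
      split_ifs with hj
      · simp only [faF]
        rw [dif_pos hj]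
      · simp only [faF]
        rw [dif_neg hj, dif_neg hj]
    · change faF (sF hN (Sum.inl (false, j, p + 1))) = _
      simp only [sF]
      split_ifs with hj
      · simp only [faF]
        rw [dif_pos hj, add_sub_cancel_right]
      · simp only [faF]
        rw [dif_neg hj]
  · have lj := j.2
    cases b
    · -- downwards
      change faF (sF hN (Sum.inr (Sum.inl (true, j, p)))) = _
      simp only [sF, faF]
      rw [dif_pos lj]
    · change faF (sF hN (Sum.inr (Sum.inl (false, j, p)))) = _
      simp only [sF, faF]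
      rw [dif_pos (by simp)]
      congr 2
  · change faF (sF hN (Sum.inr (Sum.inr (aO x)))) = _
    simp only [sF]
    split_ifs with h
    · simp only [faF]
      rw [dif_neg (by omega)]
      congr 2
      have h1 := face_O x
      have h2 : tO ⟨(aO x).val, h⟩ = aO x := rfl
      rw [← hub_s, h2]
      exact h1
    · simp only [faF]
      rw [face_O]

theorem faF_surj (hN : 2 ≤ N) : Function.Surjective (faF (N := N)) := by
  rintro (⟨j, p⟩ | y | u)
  · exact ⟨Sum.inr (Sum.inl (false, j, p)), rfl⟩
  · obtain ⟨x, hx⟩ := face_O_surj y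
    exact ⟨Sum.inr (Sum.inr x), by simp only [faF]; rw [hx]⟩
  · refine ⟨Sum.inl (false, ⟨0, by omega⟩, 0), ?_⟩
    simp only [faF]
    rw [dif_neg (by simp)]

theorem drawing_genus (hN : 2 ≤ N) : (drawing hN).GenusLE 3 := by
  have hV := card_le_quot (sP hN) vF (vF_sF hN) (vF_surj hN)
  have hF := card_le_quot (sP hN * aP) faF (faF_φ hN) (faF_surj hN)
  have hE : Nat.card (DD N) = 28 * N + 28 * (N - 1) + 62 := by
    rw [Nat.card_eq_fintype_card]
    simp only [Fintype.card_sum, Fintype.card_prod, Fintype.card_fin, Fintype.card_bool]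
    omega
  simp only [Fintype.card_sum, Fintype.card_prod, Fintype.card_fin, Fintype.card_unit] at hV hF
  have hV' : N * 14 + 12 ≤ (drawing hN).numV := hV
  have hF' : (N - 1) * 14 + (14 + 1) ≤ (drawing hN).numF := hF
  have hE' : (drawing hN).numE = Nat.card (DD N) / 2 := rfl
  unfold CMap.GenusLE
  omega

theorem edge_code (hN : 2 ≤ N) {x : Fin 62} {e : Sym2 (Vt N)}
    (h : (labF hN (Sum.inr (Sum.inr x))).edge = e) : (outD hN (cO x)).edge = e := by
  rw [← h]
  simp only [labF]
  rw [labC_edge]

theorem drawing_even (hN : 2 ≤ N) : (drawing hN).IndependentlyEven := by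
  classical
  intro e _ f _ hind
  unfold Drawing.crossings
  change Even (Nat.card {d : DD N // crF d ∧ (labF hN d).edge = e ∧
    (labF hN (sF hN d)).edge = f} / 2)
  by_cases hex : ∃ d : DD N, crF d ∧ (labF hN d).edge = e ∧ (labF hN (sF hN d)).edge = f
  · obtain ⟨d, hd, he, hf⟩ := hex
    obtain ⟨x, hx, rfl⟩ := cross_exists hd
    rw [sF_outer hN (by omega)] at hf
    have he' := edge_code hN he
    have hf' := edge_code hN hf
    obtain ⟨l1, l2⟩ := cross_legs x hx
    have hst : (cO x).val % 7 % 3 ≠ (cO (sO x)).val % 7 % 3 := by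
      intro hs
      have hs' : stOf (cO x) = stOf (cO (sO x)) := Fin.ext hs
      rw [outD_edge hN l1] at he'
      rw [outD_edge hN l2, ← hs'] at hf'
      apply hind (Sum.inr (stOf (cO x)))
      · rw [← he']; simp
      · rw [← hf']; simp
    have hev := even_O (cO x) (cO (sO x)) l1 l2 hst
    have hcard : Nat.card {d : DD N // crF d ∧ (labF hN d).edge = e ∧
        (labF hN (sF hN d)).edge = f} =
        (Finset.univ.filter (fun y : Fin 62 => 26 ≤ y.val ∧ cO y = cO x ∧
          cO (sO y) = cO (sO x))).card := by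
      rw [← Fintype.card_subtype, ← Nat.card_eq_fintype_card]
      apply Nat.card_congr
      symm
      refine Equiv.ofBijective (fun y => ⟨Sum.inr (Sum.inr y.1), y.2.1, ?_, ?_⟩) ⟨?_, ?_⟩
      · simp only [labF]
        rw [labC_edge, ← he']
        simp only
        rw [y.2.2.1]
      · rw [sF_outer hN (by have := y.2.1; omega)]
        simp only [labF]
        rw [labC_edge, ← hf']
        simp only
        rw [y.2.2.2]
      · intro y z hyz
        simp only [Subtype.mk.injEq, Sum.inr.injEq] at hyz
        exact Subtype.ext hyz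
      · rintro ⟨d, h1, h2, h3⟩
        obtain ⟨y, hy, rfl⟩ := cross_exists h1
        rw [sF_outer hN (by omega)] at h3
        have h2' := edge_code hN h2
        have h3' := edge_code hN h3
        obtain ⟨m1, m2⟩ := cross_legs y hy
        refine ⟨⟨y, hy, ?_, ?_⟩, rfl⟩
        · exact outD_edge_inj hN m1 l1 (by rw [h2', he'])
        · exact outD_edge_inj hN m2 l2 (by rw [h3', hf'])
    rw [hcard]
    exact hev
  · have : IsEmpty {d : DD N // crF d ∧ (labF hN d).edge = e ∧
        (labF hN (sF hN d)).edge = f} := ⟨fun y => hex ⟨y.1, y.2⟩⟩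
    rw [Nat.card_of_isEmpty]
    exact ⟨0, rfl⟩

/-! ### The graph is connected -/

theorem gr_connected (hN : 2 ≤ N) : (Gr N).Connected := by
  have h0 : ∀ j (hj : j < N) p, (Gr N).Reachable (vx N j p) (vx N 0 0) := by
    have hrow : ∀ j (hj : j < N) p, (Gr N).Reachable (vx N j p) (vx N j 0) := by
      intro j hj p
      have : ∀ n : ℕ, (Gr N).Reachable (vx N j (Fin.ofNat 14 n)) (vx N j 0) := by
        intro n
        induction n with
        | zero => exact SimpleGraph.Reachable.refl _
        | succ n ih =>
          have e : (Fin.ofNat 14 (n + 1)) = Fin.ofNat 14 n + 1 := by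
            apply Fin.ext
            simp [Fin.val_add]
          rw [e]
          exact (adj_hor hj _).symm.reachable.trans ih
      have h := this p.val
      have e : Fin.ofNat 14 p.val = p := by
        apply Fin.ext
        simp
      rwa [e] at h
    intro j
    induction j with
    | zero => intro hj p; exact hrow 0 hj p
    | succ j ih =>
      intro hj p
      exact (adj_up hj p).symm.reachable.trans (ih (by omega) p)
  have h1 : ∀ v, (Gr N).Reachable v (vx N 0 0) := by
    rintro (⟨j, p⟩ | s)
    · have := h0 j.val j.2 p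
      rwa [vx_of_lt j.2] at this
    · obtain ⟨e1, e2, -, -⟩ := Emb.stOf_self s
      have ha := adj_leg (N := N) (by omega) (p := ⟨s.val, by omega⟩) e2
      rw [e1] at ha
      exact ha.symm.reachable.trans (h0 _ (by omega) _)
  have : Nonempty (Vt N) := ⟨Sum.inr 0⟩
  exact ⟨fun u v => (h1 u).trans (h1 v).symm⟩

/-- The strong Hanani-Tutte property fails on the orientable surface of genus three. -/
theorem not_strong_three : ¬ StrongHananiTutte 3 := by
  intro h
  obtain ⟨M, hg, he⟩ := h (Vt 160) (Gr 160) (gr_connected (by norm_num))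
    ⟨drawing (by norm_num), drawing_genus _, drawing_even _⟩
  exact no_embedding le_rfl M hg he

end Pool.Agent.MP_c359ba_co
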