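import Pool.Agent.MP_c359ba_co.Emb

set_option autoImplicit false

/-!
# A level of the cylinder grid on which the embedding is flat
-/

namespace Pool.Agent.MP_c359ba_co

open Equiv Equiv.Perm

/-- Shift of a position by one in the direction `s`. -/
def sh (s : Bool) (p : Fin 14) : Fin 14 := if s then p + 1 else p - 1

theorem sh_sh (s : Bool) (p : Fin 14) : sh (!s) (sh s p) = p := by
  cases s
  · simp [sh]
  · simp [sh]

theorem fin14_minus_ne : ∀ p : Fin 14, p - 1 ≠ p ∧ p + 1 ≠ p := by decide

theorem fin14_neg : ∀ p : Fin 14, sh false (-p) = -(p + 1) := by decide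

variable {N : ℕ}

theorem adj_vx {j k : ℕ} {p q : Fin 14} (h1 : 1 ≤ j) (h2 : j + 1 < N) (h3 : k < N)
    (h : (Gr N).Adj (vx N j p) (vx N k q)) :
    (k = j ∧ (q = p + 1 ∨ q = p - 1)) ∨ (q = p ∧ (k = j + 1 ∨ k + 1 = j)) := by
  rcases nbr_interior h1 h2 h with h | h | h | h
  · obtain ⟨a, b⟩ := vx_inj h3 (by omega) h
    exact Or.inl ⟨a, Or.inl b⟩
  · obtain ⟨a, b⟩ := vx_inj h3 (by omega) h
    exact Or.inl ⟨a, Or.inr b⟩
  · obtain ⟨a, b⟩ := vx_inj h3 (by omega) h
    exact Or.inr ⟨b, Or.inl a⟩
  · obtain ⟨a, b⟩ := vx_inj h3 (by omega) h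
    exact Or.inr ⟨b, Or.inr (by omega)⟩

theorem adj_sh {j : ℕ} (hj : j < N) (s : Bool) (p : Fin 14) :
    (Gr N).Adj (vx N j p) (vx N j (sh s p)) := by
  cases s
  · exact adj_hor' hj p
  · exact adj_hor hj p

namespace Emb

variable (M : Emb N)

/-- The horizontal dart at level `j` and position `p` in direction `s`. -/
noncomputable def H (s : Bool) (j : ℕ) (p : Fin 14) : M.D := M.dd (vx N j p) (vx N j (sh s p))

/-- The vertical dart from level `j` to level `j + 1`. -/
noncomputable def U (j : ℕ) (p : Fin 14) : M.D := M.dd (vx N j p) (vx N (j + 1) p)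

/-- The vertical dart from level `j + 1` to level `j`. -/
noncomputable def W (j : ℕ) (p : Fin 14) : M.D := M.dd (vx N (j + 1) p) (vx N j p)

variable {M}

theorem α_U {j : ℕ} (hj : j + 1 < N) (p : Fin 14) : M.α (M.U j p) = M.W j p := α_dd (adj_up hj p)

theorem α_W {j : ℕ} (hj : j + 1 < N) (p : Fin 14) : M.α (M.W j p) = M.U j p :=
  α_dd (adj_up hj p).symm

theorem flat_one {i : ℕ} (h1 : 1 ≤ i) (h2 : i + 2 < N) {p : Fin 14}
    (hg : M.φ (M.φ (M.φ (M.φ (M.U i p)))) = M.U i p) :
    ∃ s, M.σ (M.H s i p) = M.U i p ∧ M.σ (M.U i (sh s p)) = M.H (!s) i (sh s p) := by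
  set d0 := M.U i p with hd0
  set d1 := M.φ d0 with hd1
  set d2 := M.φ d1 with hd2
  set d3 := M.φ d2 with hd3
  have b0 : M.base d0 = vx N i p := base_dd (adj_up (by omega) p)
  have b1 : M.base d1 = vx N (i + 1) p := by
    rw [hd1, M.base_φ]; exact tip_dd (adj_up (by omega) p)
  have b2 : M.base d2 = M.base (M.α d1) := M.base_φ _
  have b3 : M.base d3 = M.base (M.α d2) := M.base_φ _
  have b4 : M.base (M.α d3) = vx N i p := by rw [← M.base_φ, hg, b0]
  have n1 : M.base (M.α d1) ≠ vx N i p := by
    intro h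
    have : d1 = M.α d0 := M.ext _ _ (by rw [b1, ← b1, hd1, M.base_φ]) (by rw [h, M.α_α, b0])
    exact σ_ne' (by omega) (M.α d0) this
  have n2 : M.base (M.α d2) ≠ vx N (i + 1) p := by
    intro h
    have : d2 = M.α d1 := M.ext _ _ b2 (by rw [h, M.α_α, b1])
    exact σ_ne' (by omega) (M.α d1) this
  have a1 := M.adj d1
  rw [b1] at a1
  have a2 := M.adj d2
  rw [b2] at a2
  have a3 := (M.adj d3).symm
  rw [b4, b3] at a3
  have k1 := nbr_interior (by omega) (by omega) a1
  have k3 := nbr_interior h1 (by omega) a3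
  have goal : ∃ s, M.base (M.α d1) = vx N (i + 1) (sh s p) ∧
      M.base (M.α d2) = vx N i (sh s p) := by
    rcases k1 with k1 | k1 | k1 | k1
    · rcases k3 with k3 | k3 | k3 | k3
      · exact ⟨true, k1, k3⟩
      · rw [k1, k3] at a2
        rcases adj_vx (by omega) (by omega) (by omega) a2 with ⟨h, -⟩ | ⟨h, -⟩
        · omega
        · exact absurd h.symm (fin14_pm p)
      · exact absurd k3 n2
      · rw [k1, k3] at a2
        rcases adj_vx (by omega) (by omega) (by omega) a2 with ⟨h, -⟩ | ⟨-, h⟩ <;> omega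
    · rcases k3 with k3 | k3 | k3 | k3
      · rw [k1, k3] at a2
        rcases adj_vx (by omega) (by omega) (by omega) a2 with ⟨h, -⟩ | ⟨h, -⟩
        · omega
        · exact absurd h (fin14_pm p)
      · exact ⟨false, k1, k3⟩
      · exact absurd k3 n2
      · rw [k1, k3] at a2
        rcases adj_vx (by omega) (by omega) (by omega) a2 with ⟨h, -⟩ | ⟨-, h⟩ <;> omega
    · have a2' := a2.symm
      rcases k3 with k3 | k3 | k3 | k3
      · rw [k1, k3] at a2'
        rcases adj_vx (by omega) (by omega) (by omega) a2' with ⟨h, -⟩ | ⟨-, h⟩ <;> omega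
      · rw [k1, k3] at a2'
        rcases adj_vx (by omega) (by omega) (by omega) a2' with ⟨h, -⟩ | ⟨-, h⟩ <;> omega
      · exact absurd k3 n2
      · rw [k1, k3] at a2
        by_cases h : i + 1 + 1 + 1 < N
        · rcases adj_vx (by omega) (by omega) (by omega) a2 with ⟨h, -⟩ | ⟨-, h⟩ <;> omega
        · exfalso
          rw [vx_of_lt (by omega), vx_of_lt (by omega)] at a2
          rcases a2 with ⟨h3, -⟩ | ⟨-, h3⟩ | ⟨-, h3, -⟩
          · simp only [Fin.mk.injEq] at h3; omega
          · simp only at h3; omega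
          · simp only at h3; omega
    · exact absurd k1 n1
  obtain ⟨s, e1, e2⟩ := goal
  refine ⟨s, ?_, ?_⟩
  · have : M.α d3 = M.H s i p := eq_dd b4 (by rw [M.α_α, b3, e2])
    rw [← this]
    exact hg
  · have hW : d2 = M.dd (vx N (i + 1) (sh s p)) (vx N i (sh s p)) := eq_dd (by rw [b2, e1]) e2
    have hU : M.α d2 = M.U i (sh s p) := by
      rw [hW]; exact α_dd (adj_up (by omega) _).symm
    rw [← hU]
    change d3 = _
    exact eq_dd (by rw [b3, e2]) (by rw [b4, sh_sh])

theorem flat_two {i : ℕ} (h1 : 1 ≤ i) (h2 : i + 2 < N) {p : Fin 14}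
    (hg : M.φ (M.φ (M.φ (M.φ (M.W i p)))) = M.W i p) :
    ∃ t, M.σ (M.U i p) = M.H t i p := by
  set d0 := M.W i p with hd0
  set d1 := M.φ d0 with hd1
  set d2 := M.φ d1 with hd2
  set d3 := M.φ d2 with hd3
  have b0 : M.base d0 = vx N (i + 1) p := base_dd (adj_up (by omega) p).symm
  have b1 : M.base d1 = vx N i p := by
    rw [hd1, M.base_φ]; exact tip_dd (adj_up (by omega) p).symm
  have b2 : M.base d2 = M.base (M.α d1) := M.base_φ _
  have b3 : M.base d3 = M.base (M.α d2) := M.base_φ _
  have b4 : M.base (M.α d3) = vx N (i + 1) p := by rw [← M.base_φ, hg, b0]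
  have n1 : M.base (M.α d1) ≠ vx N (i + 1) p := by
    intro h
    have : d1 = M.α d0 := M.ext _ _ (by rw [b1, ← b1, hd1, M.base_φ]) (by rw [h, M.α_α, b0])
    exact σ_ne' (by omega) (M.α d0) this
  have n2 : M.base (M.α d2) ≠ vx N i p := by
    intro h
    have : d2 = M.α d1 := M.ext _ _ b2 (by rw [h, M.α_α, b1])
    exact σ_ne' (by omega) (M.α d1) this
  have a1 := M.adj d1
  rw [b1] at a1
  have a2 := M.adj d2
  rw [b2] at a2
  have a3 := (M.adj d3).symm
  rw [b4, b3] at a3
  have k1 := nbr_interior (by omega) (by omega) a1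
  have k3 := nbr_interior (by omega) (by omega) a3
  have hU : M.α d0 = M.U i p := α_W (by omega) p
  have goal : ∃ t, M.base (M.α d1) = vx N i (sh t p) := by
    rcases k1 with k1 | k1 | k1 | k1
    · exact ⟨true, k1⟩
    · exact ⟨false, k1⟩
    · exact absurd k1 n1
    · exfalso
      have a2' := a2.symm
      rcases k3 with k3 | k3 | k3 | k3
      · rw [k1, k3] at a2'
        rcases adj_vx (by omega) (by omega) (by omega) a2' with ⟨h, -⟩ | ⟨-, h⟩ <;> omega
      · rw [k1, k3] at a2'
        rcases adj_vx (by omega) (by omega) (by omega) a2' with ⟨h, -⟩ | ⟨-, h⟩ <;> omega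
      · rw [k1, k3] at a2
        rw [vx_of_lt (by omega), vx_of_lt (by omega)] at a2
        rcases a2 with ⟨h3, -⟩ | ⟨-, h3⟩ | ⟨h3, -, -⟩
        · simp only [Fin.mk.injEq] at h3; omega
        · simp only at h3; omega
        · simp only at h3; omega
      · rw [show i + 1 - 1 = i by omega] at k3
        exact n2 k3
  obtain ⟨t, e1⟩ := goal
  refine ⟨t, ?_⟩
  rw [← hU]
  change d1 = _
  exact eq_dd b1 e1

theorem H_inj {s t : Bool} {j : ℕ} (hj : j < N) {p : Fin 14} (h : M.H s j p = M.H t j p) :
    s = t := by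
  have := (dd_inj (adj_sh hj s p) (adj_sh hj t p) h).2
  have := (vx_inj hj hj this).2
  cases s <;> cases t
  · rfl
  · exact absurd this.symm (fin14_pm p)
  · exact absurd this (fin14_pm p)
  · rfl

/-- A level all of whose spokes lie on quadrilateral faces is flat. -/
theorem flat_level {i : ℕ} (h1 : 1 ≤ i) (h2 : i + 2 < N)
    (hU : ∀ p, M.φ (M.φ (M.φ (M.φ (M.U i p)))) = M.U i p)
    (hW : ∀ p, M.φ (M.φ (M.φ (M.φ (M.W i p)))) = M.W i p) :
    ∃ s, ∀ p, M.σ (M.H s i p) = M.U i p ∧ M.σ (M.U i p) = M.H (!s) i p := by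
  have key : ∀ p, ∃ s, M.σ (M.H s i p) = M.U i p ∧ M.σ (M.U i p) = M.H (!s) i p ∧
      M.σ (M.U i (sh s p)) = M.H (!s) i (sh s p) := by
    intro p
    obtain ⟨s, e1, e2⟩ := flat_one h1 h2 (hU p)
    obtain ⟨t, e3⟩ := flat_two h1 h2 (hW p)
    have hts : t ≠ s := by
      rintro rfl
      have hadj : (Gr N).Adj (vx N i p) (vx N (i - 1) p) := by
        have := adj_up (N := N) (j := i - 1) (by omega) p
        rw [show i - 1 + 1 = i by omega] at this
        exact this.symm
      have bH : M.base (M.H t i p) = vx N i p := base_dd (adj_sh (by omega) t p)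
      rcases M.two_cycle e1 e3 (f := M.dd (vx N i p) (vx N (i - 1) p))
        (by rw [base_dd hadj, bH]) with h | h
      · have := (dd_inj hadj (adj_sh (by omega) t p) h).2
        have := (vx_inj (by omega) (by omega) this).1
        omega
      · have := (dd_inj hadj (adj_up (by omega) p) h).2
        have := (vx_inj (by omega) (by omega) this).1
        omega
    have : t = !s := by cases t <;> cases s <;> simp_all
    rw [this] at e3
    exact ⟨s, e1, e3, e2⟩
  have step : ∀ s p, (M.σ (M.H s i p) = M.U i p ∧ M.σ (M.U i p) = M.H (!s) i p) →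
      (M.σ (M.H s i (sh s p)) = M.U i (sh s p) ∧
        M.σ (M.U i (sh s p)) = M.H (!s) i (sh s p)) := by
    rintro s p ⟨e1, e2⟩
    obtain ⟨s', f1, f2, f3⟩ := key p
    have hs : s' = s := by
      rw [e2] at f2
      have := H_inj (by omega) f2
      cases s <;> cases s' <;> simp_all
    subst hs
    obtain ⟨s'', g1, g2, -⟩ := key (sh s' p)
    have hs : s'' = s' := by
      rw [f3] at g2
      have := H_inj (by omega) g2
      cases s' <;> cases s'' <;> simp_all
    subst hs
    exact ⟨g1, g2⟩
  obtain ⟨s, e1, e2, -⟩ := key 0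
  refine ⟨s, ?_⟩
  set P : Fin 14 → Prop := fun p => M.σ (M.H s i p) = M.U i p ∧ M.σ (M.U i p) = M.H (!s) i p
    with hP
  have hstep : ∀ p, P p → P (sh s p) := fun p hp => step s p hp
  have h0 : P 0 := ⟨e1, e2⟩
  have hall : ∀ p, P p := by
    have gen : ∀ (Q : Fin 14 → Prop), Q 0 → (∀ p, Q p → Q (p + 1)) → ∀ p, Q p := by
      intro Q q0 qs p
      have : ∀ n : ℕ, Q (Fin.ofNat 14 n) := by
        intro n
        induction n with
        | zero => exact q0
        | succ n ih =>
          have := qs _ ih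
          convert this using 1
          apply Fin.ext
          simp [Fin.val_add]
      have h := this p.val
      convert h using 1
      apply Fin.ext
      simp
    cases hs : s
    · subst hs
      have := gen (fun p => P (-p)) (by simpa using h0) (fun p hp => by
        have := hstep _ hp
        have e : sh false (-p) = -(p + 1) := fin14_neg p
        rwa [e] at this)
      intro p
      have := this (-p)
      simpa using this
    · subst hs
      exact gen P h0 (fun p hp => hstep p hp)
  exact hall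

/-- If there are at most `155` darts outside quadrilateral faces, some level is flat. -/
theorem exists_flat (hN : 160 ≤ N)
    (hB : Nat.card {d : M.D // M.φ (M.φ (M.φ (M.φ d))) ≠ d} ≤ 155) :
    ∃ i, 1 ≤ i ∧ i ≤ 156 ∧ ∃ s, ∀ p, M.σ (M.H s i p) = M.U i p ∧ M.σ (M.U i p) = M.H (!s) i p := by
  classical
  have := M.fin
  by_contra hcon
  have key : ∀ i : Fin 156, ∃ d : {d : M.D // M.φ (M.φ (M.φ (M.φ d))) ≠ d},
      ∃ p, d.1 = M.U (i.val + 1) p ∨ d.1 = M.W (i.val + 1) p := by
    intro i
    by_contra h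
    apply hcon
    refine ⟨i.val + 1, by omega, by omega, ?_⟩
    apply flat_level (by omega) (by omega)
    · intro p
      by_contra hne
      exact h ⟨⟨M.U (i.val + 1) p, hne⟩, p, Or.inl rfl⟩
    · intro p
      by_contra hne
      exact h ⟨⟨M.W (i.val + 1) p, hne⟩, p, Or.inr rfl⟩
  choose f p hf using key
  have hinj : Function.Injective f := by
    intro a b hab
    have ha := hf a
    have hb := hf b
    rw [hab] at ha
    apply Fin.ext
    have l1 := a.2
    have l2 := b.2
    rcases ha with ha | ha <;> rcases hb with hb | hb <;> rw [ha] at hb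
    · have := (dd_inj (adj_up (by omega) _) (adj_up (by omega) _) hb).1
      have := (vx_inj (by omega) (by omega) this).1
      omega
    · have h3 := (dd_inj (adj_up (by omega) _) (adj_up (by omega) _).symm hb)
      have h4 := (vx_inj (by omega) (by omega) h3.1).1
      have h5 := (vx_inj (by omega) (by omega) h3.2).1
      omega
    · have h3 := (dd_inj (adj_up (by omega) _).symm (adj_up (by omega) _) hb)
      have h4 := (vx_inj (by omega) (by omega) h3.1).1
      have h5 := (vx_inj (by omega) (by omega) h3.2).1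
      omega
    · have := (dd_inj (adj_up (by omega) _).symm (adj_up (by omega) _).symm hb).2
      have := (vx_inj (by omega) (by omega) this).1
      omega
  have := Fintype.card_le_of_injective f hinj
  rw [Fintype.card_fin] at this
  rw [Nat.card_eq_fintype_card] at hB
  omega

end Emb

end Pool.Agent.MP_c359ba_co
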