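import Pool.Agent.MP_c359ba_co.Flat
import Pool.Agent.MP_c359ba_co.Check

set_option autoImplicit false

/-!
# Deleting the horizontal edges of all other levels
-/

namespace Pool.Agent.MP_c359ba_co

open Equiv Equiv.Perm

variable {N : ℕ}

/-- The end of the outermost dart at position `p`. -/
def topEnd (N : ℕ) (p : Fin 14) : Vt N :=
  if p = 6 then vx N (N - 1) 13 else if p = 13 then vx N (N - 1) 6 else Sum.inr (stOf p)

theorem fin14_leg : ∀ p : Fin 14, p ≠ 6 → p ≠ 13 → p.val % 7 ≠ 6 := by decide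

theorem fin14_leg' : ∀ p : Fin 14, p.val % 7 ≠ 6 → p ≠ 6 ∧ p ≠ 13 := by decide

theorem adj_top (hN : 0 < N) (p : Fin 14) : (Gr N).Adj (vx N (N - 1) p) (topEnd N p) := by
  unfold topEnd
  split_ifs with h1 h2
  · rw [h1]; exact adj_chord hN
  · rw [h2]; exact (adj_chord hN).symm
  · exact adj_leg hN (fin14_leg p h1 h2)

theorem nbr_bottom (hN : 2 ≤ N) {p : Fin 14} {w : Vt N} (h : (Gr N).Adj (vx N 0 p) w) :
    w = vx N 0 (p + 1) ∨ w = vx N 0 (p - 1) ∨ w = vx N 1 p := by
  rw [vx_of_lt (by omega)] at h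
  rcases w with ⟨k, q⟩ | t
  · rcases h with ⟨h3, h4⟩ | ⟨h3, h4⟩ | ⟨h3, h4, h5⟩
    · rcases h4 with h4 | h4
      · left; rw [vx_of_lt (by omega), h4, ← h3]
      · right; left
        rw [vx_of_lt (by omega), h4, ← h3, add_sub_cancel_right]
    · rcases h4 with h4 | h4
      · right; right
        rw [vx_of_lt (by omega)]
        congr 2
        · exact Fin.ext (by simp only at h4 ⊢; omega)
        · exact h3.symm
      · simp only at h4; omega
    · simp only at h3; omega
  · obtain ⟨h3, -⟩ := h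
    simp only at h3; omega

theorem nbr_top (hN : 2 ≤ N) {p : Fin 14} {w : Vt N} (h : (Gr N).Adj (vx N (N - 1) p) w) :
    w = vx N (N - 1) (p + 1) ∨ w = vx N (N - 1) (p - 1) ∨ w = vx N (N - 2) p ∨
      w = topEnd N p := by
  rw [vx_of_lt (by omega)] at h
  rcases w with ⟨k, q⟩ | t
  · rcases h with ⟨h3, h4⟩ | ⟨h3, h4⟩ | ⟨h3, h4, h5⟩
    · rcases h4 with h4 | h4
      · left; rw [vx_of_lt (by omega), h4, ← h3]
      · right; left
        rw [vx_of_lt (by omega), h4, ← h3, add_sub_cancel_right]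
    · rcases h4 with h4 | h4
      · have := k.2; simp only at h4; omega
      · right; right; left
        rw [vx_of_lt (by omega)]
        congr 2
        · exact Fin.ext (by simp only at h4 ⊢; omega)
        · exact h3.symm
    · right; right; right
      rcases h5 with ⟨h5, h6⟩ | ⟨h5, h6⟩
      · subst h5; subst h6
        rw [topEnd, if_pos rfl, vx_of_lt (by omega)]
        congr 2
        exact Fin.ext (by simp only; omega)
      · subst h5; subst h6
        rw [topEnd, if_neg (by decide), if_pos rfl, vx_of_lt (by omega)]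
        congr 2
        exact Fin.ext (by simp only; omega)
  · obtain ⟨-, h4, h5⟩ := h
    right; right; right
    obtain ⟨h6, h7⟩ := fin14_leg' p h4
    rw [topEnd, if_neg h6, if_neg h7]
    congr 1
    exact Fin.ext h5.symm

/-- The position with index `k` at star `j`. -/
def posF (j : Fin 3) (k : Fin 4) : Fin 14 := ⟨posOf j.val k.val, by
  have := j.2
  have := k.2
  unfold posOf
  omega⟩

theorem posF_props : ∀ (j : Fin 3) (k : Fin 4), (posF j k).val % 7 ≠ 6 ∧ stOf (posF j k) = j ∧
    idx (posF j k).val = k.val := by decide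

theorem posF_surj : ∀ p : Fin 14, p.val % 7 ≠ 6 → ∃ k, p = posF (stOf p) k ∧ k.val = idx p.val := by
  decide

theorem posF_inj (j : Fin 3) {k l : Fin 4} (h : posF j k = posF j l) : k = l := by
  have h1 := (posF_props j k).2.2
  have h2 := (posF_props j l).2.2
  rw [h] at h1
  exact Fin.ext (by omega)

theorem nbr_star (hN : 2 ≤ N) {j : Fin 3} {w : Vt N} (h : (Gr N).Adj (Sum.inr j) w) :
    ∃ k, w = vx N (N - 1) (posF j k) := by
  rcases w with ⟨l, p⟩ | t
  · obtain ⟨h1, h2, h3⟩ := h
    obtain ⟨k, hk, -⟩ := posF_surj p h2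
    have : stOf p = j := Fin.ext h3
    rw [this] at hk
    refine ⟨k, ?_⟩
    rw [vx_of_lt (by omega), ← hk]
    congr 2
    exact Fin.ext (by simp only at h1 ⊢; omega)
  · exact absurd h id

theorem rot_class : ∀ n : Fin 4 → Fin 4, (∀ k, n k ≠ k) → (∀ k, n (n k) ≠ k) →
    (∀ k, n (n (n k)) ≠ k) → ∃ a : Fin 6, ∀ k, (n k).val = rotTab a.val k.val := by
  decide +kernel

namespace Emb

variable (M : Emb N)

/-- The dart from level `N - 1` outwards. -/
noncomputable def T (p : Fin 14) : M.D := M.dd (vx N (N - 1) p) (topEnd N p)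

/-- The dart from a star to position `p`. -/
noncomputable def S (p : Fin 14) : M.D := M.dd (Sum.inr (stOf p)) (vx N (N - 1) p)

variable {M}

theorem α_H {j : ℕ} (hj : j < N) (s : Bool) (p : Fin 14) :
    M.α (M.H s j p) = M.H (!s) j (sh s p) := by
  unfold H
  rw [α_dd (adj_sh hj s p), sh_sh]

theorem α_T_leg (hN : 2 ≤ N) {p : Fin 14} (hp : p.val % 7 ≠ 6) : M.α (M.T p) = M.S p := by
  obtain ⟨h6, h7⟩ := fin14_leg' p hp
  have : topEnd N p = Sum.inr (stOf p) := by rw [topEnd, if_neg h6, if_neg h7]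
  unfold T S
  rw [this]
  exact α_dd (adj_leg (by omega) hp)

theorem α_T_six (hN : 2 ≤ N) : M.α (M.T 6) = M.T 13 := by
  have h1 : topEnd N 6 = vx N (N - 1) 13 := by rw [topEnd, if_pos rfl]
  have h2 : topEnd N 13 = vx N (N - 1) 6 := by rw [topEnd, if_neg (by decide), if_pos rfl]
  unfold T
  rw [h1, h2]
  exact α_dd (adj_chord (by omega))

/-- Every dart is of one of the listed kinds. -/
theorem dart_cases (hN : 2 ≤ N) (e : M.D) :
    (∃ s j p, j < N ∧ e = M.H s j p) ∨ (∃ j p, j + 1 < N ∧ e = M.U j p) ∨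
    (∃ j p, j + 1 < N ∧ e = M.W j p) ∨ (∃ p, e = M.T p) ∨
    (∃ p : Fin 14, p.val % 7 ≠ 6 ∧ e = M.S p) := by
  have ha := M.adj e
  have he : e = M.dd (M.base e) (M.base (M.α e)) := eq_dd rfl rfl
  generalize M.base (M.α e) = w at he ha
  generalize hu : M.base e = u at he ha
  rcases u with ⟨j, p⟩ | j
  · have hvx : (Sum.inl (j, p) : Vt N) = vx N j.val p := by rw [vx_of_lt j.2]
    rw [hvx] at he ha
    have hj := j.2
    by_cases h0 : j.val = 0
    · rw [h0] at he ha
      rcases nbr_bottom hN ha with h | h | h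
      · left; exact ⟨true, 0, p, by omega, by rw [he, h]; rfl⟩
      · left; exact ⟨false, 0, p, by omega, by rw [he, h]; rfl⟩
      · right; left; exact ⟨0, p, by omega, by rw [he, h]; rfl⟩
    · by_cases h1 : j.val + 1 < N
      · rcases nbr_interior (by omega) h1 ha with h | h | h | h
        · left; exact ⟨true, j, p, by omega, by rw [he, h]; rfl⟩
        · left; exact ⟨false, j, p, by omega, by rw [he, h]; rfl⟩
        · right; left; exact ⟨j, p, by omega, by rw [he, h]; rfl⟩
        · right; right; left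
          refine ⟨j - 1, p, by omega, ?_⟩
          rw [he, h]
          unfold W
          rw [show j.val - 1 + 1 = j.val by omega]
      · have h2 : j.val = N - 1 := by omega
        rw [h2] at he ha
        rcases nbr_top hN ha with h | h | h | h
        · left; exact ⟨true, N - 1, p, by omega, by rw [he, h]; rfl⟩
        · left; exact ⟨false, N - 1, p, by omega, by rw [he, h]; rfl⟩
        · right; right; left
          refine ⟨N - 2, p, by omega, ?_⟩
          rw [he, h]
          unfold W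
          rw [show N - 2 + 1 = N - 1 by omega]
        · right; right; right; left
          exact ⟨p, by rw [he, h]; rfl⟩
  · obtain ⟨k, hk⟩ := nbr_star hN ha
    obtain ⟨h1, h2, -⟩ := posF_props j k
    right; right; right; right
    refine ⟨posF j k, h1, ?_⟩
    rw [he, hk]
    unfold S
    rw [h2]

/-- First return to a set of darts. -/
theorem first_return {f : M.D → ZMod 2} (hf : ∀ e, f (M.σ e) = f (M.α e)) (R : M.D → Prop)
    {e0 : M.D} (h0 : R e0) (hR : ∀ x, M.base x = M.base e0 → ¬ R x → f (M.α x) = f x) :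
    ∃ k, 1 ≤ k ∧ R ((M.σ ^ k) e0) ∧ (∀ m, 1 ≤ m → m < k → ¬ R ((M.σ ^ m) e0)) ∧
      f ((M.σ ^ k) e0) = f (M.α e0) := by
  classical
  have := M.fin
  have hex : ∃ k, 1 ≤ k ∧ R ((M.σ ^ k) e0) := by
    refine ⟨orderOf M.σ, orderOf_pos M.σ, ?_⟩
    rw [pow_orderOf_eq_one]
    exact h0
  have hbase : ∀ m : ℕ, M.base ((M.σ ^ m) e0) = M.base e0 := by
    intro m
    induction m with
    | zero => rfl
    | succ m ih => rw [pow_succ', Perm.mul_apply, M.base_σ, ih]
  set k := Nat.find hex with hk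
  have hspec := Nat.find_spec hex
  have hmin : ∀ m, 1 ≤ m → m < k → ¬ R ((M.σ ^ m) e0) := by
    intro m h1 h2 h3
    exact Nat.find_min hex h2 ⟨h1, h3⟩
  refine ⟨k, hspec.1, hspec.2, hmin, ?_⟩
  have key : ∀ m, 1 ≤ m → m ≤ k → f ((M.σ ^ m) e0) = f (M.α e0) := by
    intro m
    induction m with
    | zero => intro h; omega
    | succ m ih =>
      intro _ h2
      rw [pow_succ', Perm.mul_apply, hf]
      rcases Nat.eq_zero_or_pos m with rfl | hm
      · rfl
      · rw [hR _ (hbase m) (hmin m hm (by omega))]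
        exact ih hm (by omega)
  exact key k hspec.1 le_rfl

theorem one_red {f : M.D → ZMod 2} (hf : ∀ e, f (M.σ e) = f (M.α e)) {e0 : M.D}
    (hR : ∀ x, M.base x = M.base e0 → x ≠ e0 → f (M.α x) = f x) : f (M.α e0) = f e0 := by
  obtain ⟨k, -, h2, -, h4⟩ := first_return hf (fun x => x = e0) rfl hR
  rw [h2] at h4
  exact h4.symm

theorem two_red {f : M.D → ZMod 2} (hf : ∀ e, f (M.σ e) = f (M.α e)) {e0 e1 : M.D}
    (hb : M.base e1 = M.base e0) (hne : e1 ≠ e0)
    (hR : ∀ x, M.base x = M.base e0 → x ≠ e0 → x ≠ e1 → f (M.α x) = f x) :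
    f e1 = f (M.α e0) := by
  obtain ⟨k, h1, h2, h3, h4⟩ := first_return hf (fun x => x = e0 ∨ x = e1) (Or.inl rfl)
    (fun x hx hnx => hR x hx (fun h => hnx (Or.inl h)) (fun h => hnx (Or.inr h)))
  rcases h2 with h2 | h2
  · exfalso
    obtain ⟨m, hm, hme⟩ := M.rot_induct (fun x => ∃ m, m < k ∧ (M.σ ^ m) e0 = x) (by
      rintro x ⟨m, hm, rfl⟩
      by_cases hmk : m + 1 < k
      · exact ⟨m + 1, hmk, by rw [pow_succ', Perm.mul_apply]⟩
      · refine ⟨0, by omega, ?_⟩
        have : m + 1 = k := by omega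
        rw [← Perm.mul_apply, ← pow_succ', this, h2]
        rfl) ⟨0, by omega, rfl⟩ hb.symm
    rcases Nat.eq_zero_or_pos m with rfl | hm0
    · exact hne hme.symm
    · exact h3 m hm0 hm (Or.inr hme)
  · rw [h2] at h4
    exact h4

end Emb

end Pool.Agent.MP_c359ba_co
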