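import Pool.Agent.MP_c359ba_co.Lower

set_option autoImplicit false

/-!
# The number of faces of an embedding
-/

namespace Pool.Agent.MP_c359ba_co

open Equiv Equiv.Perm

variable {N : ℕ}

namespace Emb

variable {M : Emb N}

theorem base_H {j : ℕ} (hj : j < N) (s : Bool) (p : Fin 14) : M.base (M.H s j p) = vx N j p :=
  base_dd (adj_sh hj s p)

theorem base_U {j : ℕ} (hj : j + 1 < N) (p : Fin 14) : M.base (M.U j p) = vx N j p :=
  base_dd (adj_up hj p)

theorem base_W {j : ℕ} (hj : j + 1 < N) (p : Fin 14) : M.base (M.W j p) = vx N (j + 1) p :=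
  base_dd (adj_up hj p).symm

theorem base_T (hN : 0 < N) (p : Fin 14) : M.base (M.T p) = vx N (N - 1) p :=
  base_dd (adj_top hN p)

theorem base_S (hN : 0 < N) {p : Fin 14} (hp : p.val % 7 ≠ 6) :
    M.base (M.S p) = Sum.inr (stOf p) :=
  base_dd (adj_leg hN hp).symm

theorem at_interior {j : ℕ} (h1 : 1 ≤ j) (h2 : j + 1 < N) {p : Fin 14} {x : M.D}
    (hx : M.base x = vx N j p) :
    x = M.H true j p ∨ x = M.H false j p ∨ x = M.U j p ∨ x = M.W (j - 1) p := by
  have ha := M.adj x
  rw [hx] at ha
  rcases nbr_interior h1 h2 ha with h | h | h | h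
  · exact Or.inl (eq_dd hx h)
  · exact Or.inr (Or.inl (eq_dd hx h))
  · exact Or.inr (Or.inr (Or.inl (eq_dd hx h)))
  · right; right; right
    unfold W
    rw [show j - 1 + 1 = j by omega]
    exact eq_dd hx h

theorem at_bottom (hN : 2 ≤ N) {p : Fin 14} {x : M.D} (hx : M.base x = vx N 0 p) :
    x = M.H true 0 p ∨ x = M.H false 0 p ∨ x = M.U 0 p := by
  have ha := M.adj x
  rw [hx] at ha
  rcases nbr_bottom hN ha with h | h | h
  · exact Or.inl (eq_dd hx h)
  · exact Or.inr (Or.inl (eq_dd hx h))
  · exact Or.inr (Or.inr (eq_dd hx h))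

theorem at_top (hN : 2 ≤ N) {p : Fin 14} {x : M.D} (hx : M.base x = vx N (N - 1) p) :
    x = M.H true (N - 1) p ∨ x = M.H false (N - 1) p ∨ x = M.W (N - 2) p ∨ x = M.T p := by
  have ha := M.adj x
  rw [hx] at ha
  rcases nbr_top hN ha with h | h | h | h
  · exact Or.inl (eq_dd hx h)
  · exact Or.inr (Or.inl (eq_dd hx h))
  · right; right; left
    unfold W
    rw [show N - 2 + 1 = N - 1 by omega]
    exact eq_dd hx h
  · exact Or.inr (Or.inr (Or.inr (eq_dd hx h)))

theorem hor_sym {f : M.D → ZMod 2} {j : ℕ} (hj : j < N)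
    (h : ∀ p, f (M.α (M.H true j p)) = f (M.H true j p)) (s : Bool) (p : Fin 14) :
    f (M.α (M.H s j p)) = f (M.H s j p) := by
  cases s
  · have e1 : M.α (M.H false j p) = M.H true j (p - 1) := α_H hj false p
    have e2 : M.α (M.H true j (p - 1)) = M.H false j p := by rw [← e1, M.α_α]
    rw [e1, ← h (p - 1), e2]
  · exact h p

section main

variable {f : M.D → ZMod 2} {i : ℕ}

theorem below (hN : 2 ≤ N) (hf : ∀ e, f (M.σ e) = f (M.α e)) (hi : i + 2 < N)
    (hE : ∀ j, j < N → j ≠ i → ∀ p, f (M.α (M.H true j p)) = f (M.H true j p)) :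
    ∀ j, j < i → ∀ p, f (M.W j p) = f (M.U j p) := by
  intro j
  induction j with
  | zero =>
    intro hj p
    rw [← α_U (by omega)]
    refine one_red hf ?_
    intro x hx hne
    rw [base_U (by omega)] at hx
    rcases at_bottom hN hx with h | h | h
    · rw [h]; exact hor_sym (by omega) (hE 0 (by omega) (by omega)) true p
    · rw [h]; exact hor_sym (by omega) (hE 0 (by omega) (by omega)) false p
    · exact absurd h hne
  | succ j ih =>
    intro hj p
    rw [← α_U (by omega)]
    refine one_red hf ?_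
    intro x hx hne
    rw [base_U (by omega)] at hx
    rcases at_interior (by omega) (by omega) hx with h | h | h | h
    · rw [h]; exact hor_sym (by omega) (hE _ (by omega) (by omega)) true p
    · rw [h]; exact hor_sym (by omega) (hE _ (by omega) (by omega)) false p
    · exact absurd h hne
    · rw [h, show j + 1 - 1 = j by omega, α_W (by omega)]
      exact (ih (by omega) p).symm

theorem column (hN : 2 ≤ N) (hf : ∀ e, f (M.σ e) = f (M.α e)) (hi : i + 2 < N)
    (hE : ∀ j, j < N → j ≠ i → ∀ p, f (M.α (M.H true j p)) = f (M.H true j p)) (p : Fin 14) :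
    ∀ j, i ≤ j → j + 1 < N → f (M.U j p) = f (M.U i p) ∧ f (M.W j p) = f (M.W i p) := by
  intro j hij
  induction j, hij using Nat.le_induction with
  | base => intro _; exact ⟨rfl, rfl⟩
  | succ j hij ih =>
    intro hj
    obtain ⟨h1, h2⟩ := ih (by omega)
    have bU : M.base (M.U (j + 1) p) = vx N (j + 1) p := base_U hj p
    have bW : M.base (M.W j p) = vx N (j + 1) p := base_W (by omega) p
    have hne : M.U (j + 1) p ≠ M.W j p := by
      intro h
      have := (dd_inj (adj_up hj p) (adj_up (by omega) p).symm h).2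
      have := (vx_inj (by omega) (by omega) this).1
      omega
    have hR : ∀ x, M.base x = vx N (j + 1) p → x ≠ M.U (j + 1) p → x ≠ M.W j p →
        f (M.α x) = f x := by
      intro x hx n1 n2
      rcases at_interior (by omega) hj hx with h | h | h | h
      · rw [h]; exact hor_sym (by omega) (hE _ (by omega) (by omega)) true p
      · rw [h]; exact hor_sym (by omega) (hE _ (by omega) (by omega)) false p
      · exact absurd h n1
      · exact absurd h n2
    constructor
    · have eW := α_W (M := M) (show j + 1 < N by omega) p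
      rw [← h1, ← eW]
      exact two_red hf (by rw [bU, bW]) hne (fun x hx n1 n2 => hR x (by rw [hx, bW]) n2 n1)
    · rw [← h2, ← α_U hj]
      exact (two_red hf (by rw [bU, bW]) hne.symm
        (fun x hx n1 n2 => hR x (by rw [hx, bU]) n1 n2)).symm

theorem top_val (hN : 2 ≤ N) (hf : ∀ e, f (M.σ e) = f (M.α e)) (hi : i + 2 < N)
    (hE : ∀ j, j < N → j ≠ i → ∀ p, f (M.α (M.H true j p)) = f (M.H true j p)) (p : Fin 14) :
    f (M.T p) = f (M.U i p) ∧ f (M.α (M.T p)) = f (M.W i p) := by
  obtain ⟨h1, h2⟩ := column hN hf hi hE p (N - 2) (by omega) (by omega)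
  have bT : M.base (M.T p) = vx N (N - 1) p := base_T (by omega) p
  have bW : M.base (M.W (N - 2) p) = vx N (N - 1) p := by
    rw [base_W (by omega), show N - 2 + 1 = N - 1 by omega]
  have hne : M.T p ≠ M.W (N - 2) p := by
    intro h
    have h3 := (dd_inj (adj_top (by omega) p) (adj_up (by omega) p).symm h).2
    unfold topEnd at h3
    split_ifs at h3 with h4 h5
    · have := (vx_inj (by omega) (by omega) h3).1; omega
    · have := (vx_inj (by omega) (by omega) h3).1; omega
    · rw [vx_of_lt (by omega)] at h3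
      exact absurd h3 (by simp)
  have hR : ∀ x, M.base x = vx N (N - 1) p → x ≠ M.T p → x ≠ M.W (N - 2) p →
      f (M.α x) = f x := by
    intro x hx n1 n2
    rcases at_top hN hx with h | h | h | h
    · rw [h]; exact hor_sym (by omega) (hE _ (by omega) (by omega)) true p
    · rw [h]; exact hor_sym (by omega) (hE _ (by omega) (by omega)) false p
    · exact absurd h n2
    · exact absurd h n1
  constructor
  · rw [← h1, ← α_W (by omega)]
    exact two_red hf (by rw [bT, bW]) hne (fun x hx n1 n2 => hR x (by rw [hx, bW]) n2 n1)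
  · rw [← h2]
    exact (two_red hf (by rw [bT, bW]) hne.symm
      (fun x hx n1 n2 => hR x (by rw [hx, bT]) n1 n2)).symm

theorem cycle_val (hN : 2 ≤ N) (hf : ∀ e, f (M.σ e) = f (M.α e)) (h1 : 1 ≤ i) (hi : i + 2 < N)
    (hE : ∀ j, j < N → j ≠ i → ∀ p, f (M.α (M.H true j p)) = f (M.H true j p)) {s : Bool}
    (hflat : ∀ p, M.σ (M.H s i p) = M.U i p ∧ M.σ (M.U i p) = M.H (!s) i p) (p : Fin 14) :
    f (M.U i p) = f (M.α (M.H s i p)) ∧ f (M.H (!s) i p) = f (M.α (M.U i p)) ∧
      f (M.H s i p) = f (M.α (M.H (!s) i p)) := by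
  obtain ⟨e1, e2⟩ := hflat p
  refine ⟨by rw [← e1, hf], by rw [← e2, hf], ?_⟩
  have bH : ∀ t, M.base (M.H t i p) = vx N i p := fun t => base_H (by omega) t p
  have nHH : M.H (!s) i p ≠ M.H s i p := by
    intro h
    have := H_inj (by omega) h
    cases s <;> simp at this
  have nUH : ∀ t, M.H t i p ≠ M.U i p := by
    intro t h
    have := (dd_inj (adj_sh (by omega) t p) (adj_up (by omega) p) h).2
    have := (vx_inj (by omega) (by omega) this).1
    omega
  obtain ⟨k, k1, k2, k3, k4⟩ := first_return hf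
    (fun x => x = M.H s i p ∨ x = M.U i p ∨ x = M.H (!s) i p) (e0 := M.H (!s) i p)
    (Or.inr (Or.inr rfl)) (by
      intro x hx hnx
      rw [bH] at hx
      rcases at_interior h1 (by omega) hx with h | h | h | h
      · exfalso; apply hnx; rw [h]; cases s
        · exact Or.inr (Or.inr rfl)
        · exact Or.inl rfl
      · exfalso; apply hnx; rw [h]; cases s
        · exact Or.inl rfl
        · exact Or.inr (Or.inr rfl)
      · exfalso; apply hnx; rw [h]; exact Or.inr (Or.inl rfl)
      · rw [h, α_W (by omega)]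
        exact (below hN hf hi hE (i - 1) (by omega) p).symm)
  rw [← k4]
  rcases k2 with h | h | h
  · rw [h]
  · exfalso
    have h5 : (M.σ ^ (k - 1)) (M.H (!s) i p) = M.H s i p := by
      apply M.σ.injective
      rw [e1, ← h, ← Perm.mul_apply, ← pow_succ', show k - 1 + 1 = k by omega]
    rcases Nat.eq_zero_or_pos (k - 1) with h6 | h6
    · rw [h6] at h5
      exact nHH h5
    · exact k3 (k - 1) h6 (by omega) (Or.inl h5)
  · exfalso
    have h5 : (M.σ ^ (k - 1)) (M.H (!s) i p) = M.U i p := by
      apply M.σ.injective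
      rw [e2, ← Perm.mul_apply, ← pow_succ', show k - 1 + 1 = k by omega]
      exact h
    rcases Nat.eq_zero_or_pos (k - 1) with h6 | h6
    · rw [h6] at h5
      exact nUH _ h5
    · exact k3 (k - 1) h6 (by omega) (Or.inr (Or.inl h5))

end main

/-- The rotation at a star is one of the six cyclic rotations. -/
theorem star_rot (hN : 2 ≤ N) (j : Fin 3) : ∃ a : Fin 6, ∀ k : Fin 4, ∃ k' : Fin 4,
    k'.val = rotTab a.val k.val ∧ M.σ (M.S (posF j k)) = M.S (posF j k') := by
  classical
  have hS : ∀ k, M.base (M.S (posF j k)) = Sum.inr j := by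
    intro k
    obtain ⟨h1, h2, -⟩ := posF_props j k
    rw [base_S (by omega) h1, h2]
  have hSinj : ∀ k l, M.S (posF j k) = M.S (posF j l) → k = l := by
    intro k l h
    obtain ⟨h1, -, -⟩ := posF_props j k
    obtain ⟨h2, -, -⟩ := posF_props j l
    have := (dd_inj (adj_leg (by omega) h1).symm (adj_leg (by omega) h2).symm h).2
    exact posF_inj j (vx_inj (by omega) (by omega) this).2
  have hex : ∀ k, ∃ k', M.σ (M.S (posF j k)) = M.S (posF j k') := by
    intro k
    have hb : M.base (M.σ (M.S (posF j k))) = Sum.inr j := by rw [M.base_σ, hS]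
    have ha := M.adj (M.σ (M.S (posF j k)))
    rw [hb] at ha
    obtain ⟨k', hk'⟩ := nbr_star hN ha
    refine ⟨k', ?_⟩
    obtain ⟨-, h2, -⟩ := posF_props j k'
    unfold S
    rw [h2]
    exact eq_dd hb hk'
  choose n hn using hex
  have no_cycle : ∀ d : M.D, M.base d = Sum.inr j → M.σ (M.σ (M.σ d)) = d ∨
      M.σ (M.σ d) = d ∨ M.σ d = d → False := by
    intro d hd hcase
    have hall : ∀ k, M.S (posF j k) = d ∨ M.S (posF j k) = M.σ d ∨
        M.S (posF j k) = M.σ (M.σ d) := by
      intro k
      refine M.rot_induct (fun x => x = d ∨ x = M.σ d ∨ x = M.σ (M.σ d)) ?_ (Or.inl rfl)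
        (by rw [hd, hS])
      rintro x (rfl | rfl | rfl)
      · exact Or.inr (Or.inl rfl)
      · exact Or.inr (Or.inr rfl)
      · rcases hcase with h | h | h
        · exact Or.inl h
        · right; left; rw [h]
        · left; simp [h]
    have hsub : (Finset.univ.image (fun k => M.S (posF j k))) ⊆
        ({d, M.σ d, M.σ (M.σ d)} : Finset M.D) := by
      intro x hx
      obtain ⟨k, -, rfl⟩ := Finset.mem_image.1 hx
      simp only [Finset.mem_insert, Finset.mem_singleton]
      exact hall k
    have h1 := Finset.card_le_card hsub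
    rw [Finset.card_image_of_injective _ (fun k l h => hSinj k l h), Finset.card_univ,
      Fintype.card_fin] at h1
    have h2 : ({d, M.σ d, M.σ (M.σ d)} : Finset M.D).card ≤ 3 := Finset.card_le_three
    omega
  obtain ⟨a, ha⟩ := rot_class n (by
      intro k hk
      have := hn k
      rw [hk] at this
      exact no_cycle _ (hS k) (Or.inr (Or.inr this))) (by
      intro k hk
      have h1 := hn (n k)
      rw [hk, ← hn k] at h1
      exact no_cycle _ (hS k) (Or.inr (Or.inl h1))) (by
      intro k hk
      have h1 := hn (n (n k))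
      rw [hk, ← hn (n k), ← hn k] at h1
      exact no_cycle _ (hS k) (Or.inl h1))
  exact ⟨a, fun k => ⟨n k, ha k, hn k⟩⟩

/-- The dart with a given code. -/
noncomputable def code (M : Emb N) (i c : ℕ) : M.D :=
  if c < 14 then M.H true i (Fin.ofNat 14 c)
  else if c < 28 then M.H false i (Fin.ofNat 14 (c - 14))
  else if c < 42 then M.U i (Fin.ofNat 14 (c - 28))
  else M.S (Fin.ofNat 14 (c - 42))

theorem ofNat_val (p : Fin 14) : Fin.ofNat 14 p.val = p := by
  apply Fin.ext
  simp

theorem code0 (i : ℕ) (p : Fin 14) : M.code i p.val = M.H true i p := by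
  have := p.2
  rw [code, if_pos this, ofNat_val]

theorem code1 (i : ℕ) (p : Fin 14) : M.code i (14 + p.val) = M.H false i p := by
  have := p.2
  rw [code, if_neg (by omega), if_pos (by omega), Nat.add_sub_cancel_left, ofNat_val]

theorem code2 (i : ℕ) (p : Fin 14) : M.code i (28 + p.val) = M.U i p := by
  have := p.2
  rw [code, if_neg (by omega), if_neg (by omega), if_pos (by omega), Nat.add_sub_cancel_left,
    ofNat_val]

theorem code3 (i : ℕ) (p : Fin 14) : M.code i (42 + p.val) = M.S p := by
  have := p.2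
  rw [code, if_neg (by omega), if_neg (by omega), if_neg (by omega), Nat.add_sub_cancel_left,
    ofNat_val]

end Emb

theorem code_split {c : ℕ} (h : full.testBit c = true) : ∃ p : Fin 14,
    c = p.val ∨ c = 14 + p.val ∨ c = 28 + p.val ∨ (c = 42 + p.val ∧ p.val % 7 ≠ 6) := by
  have hlt := used_lt h
  have key : ∀ c : Fin 56, full.testBit c.val = true → ∃ p : Fin 14,
    c.val = p.val ∨ c.val = 14 + p.val ∨ c.val = 28 + p.val ∨
      (c.val = 42 + p.val ∧ p.val % 7 ≠ 6) := by decide +kernel
  exact key ⟨c, hlt⟩ h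

theorem ar_props {c : ℕ} (h : full.testBit c = true) :
    full.testBit (ar c) = true ∧ ar (ar c) = c := by
  have hlt := used_lt h
  have key : ∀ c : Fin 56, full.testBit c.val = true →
    full.testBit (ar c.val) = true ∧ ar (ar c.val) = c.val := by decide +kernel
  exact key ⟨c, hlt⟩ h

theorem fin14_add : ∀ p : Fin 14, ar p.val = 14 + (p + 1).val ∧
    ar (14 + p.val) = (p - 1).val ∧
    (p ≠ 6 → p ≠ 13 → ar (28 + p.val) = 42 + p.val) ∧ ar (42 + p.val) = 28 + p.val := by decide

theorem sr_vals (r : ℕ → ℕ) (p : Fin 14) : sr true r p.val = 28 + p.val ∧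
    sr false r p.val = 14 + p.val ∧ sr true r (14 + p.val) = p.val ∧
    sr false r (14 + p.val) = 28 + p.val ∧ sr true r (28 + p.val) = 14 + p.val ∧
    sr false r (28 + p.val) = p.val ∧
    ∀ s, sr s r (42 + p.val) =
      42 + posOf (p.val % 7 % 3) (rotTab (r (p.val % 7 % 3)) (idx p.val)) := by
  have := p.2
  refine ⟨?_, ?_, ?_, ?_, ?_, ?_, ?_⟩
  · rw [sr, if_pos this, if_pos rfl]
  · rw [sr, if_pos this, if_neg (by simp)]
  · rw [sr, if_neg (by omega), if_pos (by omega), if_pos rfl]; omega
  · rw [sr, if_neg (by omega), if_pos (by omega), if_neg (by simp)]; omega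
  · rw [sr, if_neg (by omega), if_neg (by omega), if_pos (by omega), if_pos rfl]; omega
  · rw [sr, if_neg (by omega), if_neg (by omega), if_pos (by omega), if_neg (by simp)]; omega
  · intro s
    rw [sr, if_neg (by omega), if_neg (by omega), if_neg (by omega), Nat.add_sub_cancel_left]

namespace Emb

variable {M : Emb N}

theorem main_zero (hN : 2 ≤ N) {i : ℕ} (h1 : 1 ≤ i) (hi : i + 2 < N) {s : Bool}
    (hflat : ∀ p, M.σ (M.H s i p) = M.U i p ∧ M.σ (M.U i p) = M.H (!s) i p)
    (hconn : ∀ P : M.D → Prop, (∀ d, P d → P (M.σ d) ∧ P (M.α d)) → (∃ d, P d) → ∀ d, P d) :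
    ∃ reps : Fin 4 → M.D, ∀ f : M.D → ZMod 2, (∀ d, f (M.φ d) = f d) →
      (∀ j, j < N → j ≠ i → ∀ p, f (M.α (M.H true j p)) = f (M.H true j p)) →
      (∀ m, f (reps m) = 0) → f = 0 := by
  choose a ha using fun j => star_rot (M := M) hN j
  obtain ⟨reps, hreps⟩ := check_main s (a 0) (a 1) (a 2)
  refine ⟨fun m => M.code i (reps m), ?_⟩
  intro f hφ hE h0
  have hf : ∀ e, f (M.σ e) = f (M.α e) := by
    intro e
    have := hφ (M.α e)
    rwa [M.φ_apply, M.α_α] at this
  have htop := top_val hN hf hi hE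
  have hcyc := cycle_val hN hf h1 hi hE hflat
  -- reversal on codes
  have A : ∀ c, full.testBit c = true → f (M.α (M.code i c)) = f (M.code i (ar c)) := by
    intro c hc
    obtain ⟨p, h | h | h | ⟨h, hp⟩⟩ := code_split hc
    · rw [h, (fin14_add p).1, code0, code1, α_H (by omega)]; rfl
    · rw [h, (fin14_add p).2.1, code1, code0, α_H (by omega)]; rfl
    · by_cases h6 : p = 6
      · subst h6
        have e : ar (28 + (6 : Fin 14).val) = 28 + (13 : Fin 14).val := by decide
        rw [h, e, code2, code2, α_U (by omega), ← (htop 6).2, α_T_six hN, (htop 13).1]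
      · by_cases h7 : p = 13
        · subst h7
          have e : ar (28 + (13 : Fin 14).val) = 28 + (6 : Fin 14).val := by decide
          have e2 : M.α (M.T 13) = M.T 6 := by rw [← α_T_six hN, M.α_α]
          rw [h, e, code2, code2, α_U (by omega), ← (htop 13).2, e2, (htop 6).1]
        · rw [h, (fin14_add p).2.2.1 h6 h7, code2, code3, α_U (by omega), ← (htop p).2,
            α_T_leg hN (fin14_leg p h6 h7)]
    · have e2 : M.α (M.S p) = M.T p := by rw [← α_T_leg hN hp, M.α_α]
      rw [h, (fin14_add p).2.2.2, code3, code2, e2, (htop p).1]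
  -- rotation on codes
  have B : ∀ c, full.testBit c = true →
      f (M.code i (sr s (rr (a 0) (a 1) (a 2)) c)) = f (M.α (M.code i c)) := by
    intro c hc
    obtain ⟨p, hp⟩ := code_split hc
    obtain ⟨s1, s2, s3, s4, s5, s6, s7⟩ := sr_vals (rr (a 0) (a 1) (a 2)) p
    obtain ⟨c1, c2, c3⟩ := hcyc p
    rcases hp with h | h | h | ⟨h, hp⟩
    · rw [h, code0]
      cases s
      · rw [s2, code1]; exact c3
      · rw [s1, code2]; exact c1
    · rw [h, code1]
      cases s
      · rw [s4, code2]; exact c1
      · rw [s3, code0]; exact c3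
    · rw [h, code2]
      cases s
      · rw [s6, code0]; exact c2
      · rw [s5, code1]; exact c2
    · rw [h, code3, s7]
      obtain ⟨k, hk1, hk2⟩ := posF_surj p hp
      obtain ⟨k', hk3, hk4⟩ := ha (stOf p) k
      rw [← hk1] at hk4
      have e1 : rr (a 0) (a 1) (a 2) (p.val % 7 % 3) = (a (stOf p)).val := by
        have : ∀ (b : Fin 3 → Fin 6) (j : Fin 3), rr (b 0) (b 1) (b 2) j.val = (b j).val := by
          intro b j
          fin_cases j <;> rfl
        exact this a (stOf p)
      have e2 : posOf (p.val % 7 % 3) (rotTab (rr (a 0) (a 1) (a 2) (p.val % 7 % 3)) (idx p.val)) =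
          (posF (stOf p) k').val := by
        rw [e1, ← hk2, ← hk3]; rfl
      rw [e2, code3, ← hk4, hf]
  have hg : ∀ x, full.testBit x = true →
      f (M.code i (fr s (rr (a 0) (a 1) (a 2)) x)) = f (M.code i x) := by
    intro x hx
    obtain ⟨u1, u2⟩ := ar_props hx
    rw [fr, B _ u1, A _ u1, u2]
  have hz : ∀ x, full.testBit x = true → f (M.code i x) = 0 :=
    hreps (fun x => f (M.code i x)) hg h0
  have z0 : ∀ p : Fin 14, f (M.H true i p) = 0 := by
    intro p
    rw [← code0]
    apply hz
    revert p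
    decide
  have z1 : ∀ p : Fin 14, f (M.H false i p) = 0 := by
    intro p
    rw [← code1]
    apply hz
    revert p
    decide
  have z2 : ∀ p : Fin 14, f (M.U i p) = 0 := by
    intro p
    rw [← code2]
    apply hz
    revert p
    decide
  have z3 : ∀ p : Fin 14, p.val % 7 ≠ 6 → f (M.S p) = 0 := by
    intro p
    rw [← code3 (M := M) i p]
    intro hp
    apply hz
    revert hp
    revert p
    decide
  have z4 : ∀ p : Fin 14, f (M.W i p) = 0 := by
    intro p
    have h2 : full.testBit (28 + p.val) = true := by revert p; decide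
    have := A _ h2
    rw [code2, α_U (by omega)] at this
    rw [this]
    exact hz _ (ar_props h2).1
  have hy : ∀ e, f (M.α e) = f e := by
    intro e
    rcases dart_cases hN e with ⟨t, j, p, hj, rfl⟩ | ⟨j, p, hj, rfl⟩ | ⟨j, p, hj, rfl⟩ |
      ⟨p, rfl⟩ | ⟨p, hp, rfl⟩
    · by_cases hji : j = i
      · subst hji
        rw [α_H hj]
        cases t
        · rw [z1]; exact z0 _
        · rw [z0]; exact z1 _
      · exact hor_sym hj (hE j hj hji) t p
    · rw [α_U hj]
      rcases Nat.lt_or_ge j i with h | h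
      · exact below hN hf hi hE j h p
      · obtain ⟨h3, h4⟩ := column hN hf hi hE p j h hj
        rw [h3, h4, z2, z4]
    · rw [α_W hj]
      rcases Nat.lt_or_ge j i with h | h
      · exact (below hN hf hi hE j h p).symm
      · obtain ⟨h3, h4⟩ := column hN hf hi hE p j h hj
        rw [h3, h4, z2, z4]
    · rw [(htop p).1, (htop p).2, z2, z4]
    · have e2 : M.α (M.S p) = M.T p := by rw [← α_T_leg hN hp, M.α_α]
      rw [e2, (htop p).1, z2, z3 p hp]
  have := hconn (fun d => f d = 0) (by
    intro d hd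
    exact ⟨by rw [hf, hy, hd], by rw [hy, hd]⟩) ⟨_, z0 0⟩
  funext d
  exact this d

theorem faces_le (hN : 2 ≤ N) {i : ℕ} (h1 : 1 ≤ i) (hi : i + 2 < N) {s : Bool}
    (hflat : ∀ p, M.σ (M.H s i p) = M.U i p ∧ M.σ (M.U i p) = M.H (!s) i p)
    (hconn : ∀ P : M.D → Prop, (∀ d, P d → P (M.σ d) ∧ P (M.α d)) → (∃ d, P d) → ∀ d, P d) :
    Nat.card (Quotient (SameCycle.setoid M.φ)) ≤ 14 * (N - 1) + 4 := by
  classical
  have := M.fin
  obtain ⟨reps, hreps⟩ := main_zero hN h1 hi hflat hconn
  let Tm : (M.D → ZMod 2) →ₗ[ZMod 2] (({j : Fin N // j.val ≠ i} × Fin 14) ⊕ Fin 4 → ZMod 2) :=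
    { toFun := fun f => Sum.elim
        (fun x => f (M.α (M.H true x.1.1.val x.2)) + f (M.H true x.1.1.val x.2))
        (fun m => f (reps m))
      map_add' := by
        intro f g
        funext x
        rcases x with x | x
        · simp only [Sum.elim_inl, Pi.add_apply]; ring
        · simp only [Sum.elim_inr, Pi.add_apply]
      map_smul' := by
        intro c f
        funext x
        rcases x with x | x
        · simp only [Sum.elim_inl, Pi.smul_apply, smul_eq_mul, RingHom.id_apply]; ring
        · simp only [Sum.elim_inr, Pi.smul_apply, RingHom.id_apply] }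
  have h := card_orbits_le M.φ Tm (by
    intro f hφ h0
    apply hreps f hφ
    · intro j hj hji p
      have := congrFun h0 (Sum.inl (⟨⟨j, hj⟩, hji⟩, p))
      have h2 : f (M.α (M.H true j p)) + f (M.H true j p) = 0 := this
      have key : ∀ a b : ZMod 2, a + b = 0 → a = b := by decide
      exact key _ _ h2
    · intro m
      exact congrFun h0 (Sum.inr m))
  refine h.trans (le_of_eq ?_)
  rw [Fintype.card_sum, Fintype.card_prod, Fintype.card_fin, Fintype.card_fin]
  have hc : Fintype.card {j : Fin N // j.val ≠ i} = N - 1 := by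
    have h3 := Fintype.card_subtype_compl (fun j : Fin N => j.val = i)
    rw [Fintype.card_fin] at h3
    have h4 : Fintype.card {j : Fin N // j.val = i} = 1 := by
      rw [Fintype.card_eq_one_iff]
      exact ⟨⟨⟨i, by omega⟩, rfl⟩, fun y => Subtype.ext (Fin.ext y.2)⟩
    rw [h4] at h3
    exact h3
  rw [hc]
  ring

end Emb

end Pool.Agent.MP_c359ba_co
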