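import Mathlib

set_option autoImplicit false

/-!
# The outer part of the drawing

The darts `0, ..., 13` leave the outermost cycle, `14, ..., 25` leave the three stars, and
`26, ..., 61` are based at the nine crossings (four each).
-/

namespace Pool.Agent.MP_c359ba_co

/-- Rotation. -/
def sL : List ℕ := [1, 2, 3, 4, 5, 6, 7, 8, 9, 10, 11, 12, 13, 0, 15, 16, 17, 14, 19, 20, 21, 18,
  23, 24, 25, 22, 27, 28, 29, 26, 31, 32, 33, 30, 35, 36, 37, 34, 39, 40, 41, 38, 43, 44, 45, 42,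
  47, 48, 49, 46, 51, 52, 53, 50, 55, 56, 57, 54, 59, 60, 61, 58]

/-- Reversal. -/
def aL : List ℕ := [41, 42, 22, 17, 19, 32, 13, 15, 51, 55, 59, 21, 24, 6, 39, 7, 36, 3, 58, 4, 53,
  11, 2, 37, 12, 49, 35, 47, 30, 57, 28, 38, 5, 61, 45, 26, 16, 23, 31, 14, 43, 0, 1, 40, 48, 34,
  52, 27, 44, 25, 56, 8, 46, 20, 60, 9, 50, 29, 18, 10, 54, 33]

/-- Position (on the outermost cycle) of the edge. -/
def cL : List ℕ := [0, 1, 2, 3, 4, 5, 6, 7, 8, 9, 10, 11, 12, 13, 0, 7, 10, 3, 1, 4, 8, 11, 2, 5,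
  12, 9, 5, 9, 5, 9, 5, 10, 5, 10, 10, 5, 10, 5, 10, 0, 10, 0, 1, 10, 1, 10, 1, 9, 1, 9, 1, 8, 1,
  8, 1, 9, 1, 9, 1, 10, 1, 10]

/-- Direction of travel: `1` away from the cycle. -/
def bL : List ℕ := [1, 1, 1, 1, 1, 1, 1, 1, 1, 1, 1, 1, 1, 1, 0, 0, 0, 0, 0, 0, 0, 0, 0, 0, 0, 0,
  1, 1, 0, 0, 1, 1, 0, 0, 0, 0, 1, 1, 0, 1, 1, 0, 0, 0, 1, 1, 1, 0, 0, 1, 1, 0, 0, 1, 1, 0, 0, 1,
  1, 0, 0, 1]

/-- Number of crossings passed so far. -/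
def pL : List ℕ := [0, 0, 0, 0, 0, 0, 0, 0, 0, 0, 0, 0, 0, 0, 0, 0, 0, 0, 0, 0, 0, 0, 0, 0, 0, 0,
  2, 2, 2, 2, 1, 2, 3, 4, 1, 1, 5, 3, 3, 1, 3, 1, 5, 2, 1, 4, 2, 1, 4, 3, 3, 1, 3, 1, 4, 3, 2, 1,
  5, 5, 1, 1]

/-- Face. -/
def fL : List ℕ := [0, 1, 2, 3, 4, 5, 0, 6, 7, 8, 9, 10, 11, 6, 3, 7, 6, 4, 10, 5, 4, 11, 3, 2, 6,
  11, 4, 12, 7, 13, 13, 7, 0, 5, 2, 12, 4, 6, 0, 7, 3, 1, 2, 1, 3, 12, 11, 7, 12, 3, 4, 8, 7, 11,
  13, 9, 8, 4, 5, 10, 9, 13]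

/-- Vertex (three stars and nine crossings). -/
def vL : List ℕ := [0, 0, 0, 0, 0, 0, 0, 0, 0, 0, 0, 0, 0, 0, 0, 0, 0, 0, 1, 1, 1, 1, 2, 2, 2, 2,
  3, 3, 3, 3, 4, 4, 4, 4, 5, 5, 5, 5, 6, 6, 6, 6, 7, 7, 7, 7, 8, 8, 8, 8, 9, 9, 9, 9, 10, 10, 10,
  10, 11, 11, 11, 11]

def sO (x : Fin 62) : Fin 62 := Fin.ofNat 62 (sL.getD x.val 0)
def aO (x : Fin 62) : Fin 62 := Fin.ofNat 62 (aL.getD x.val 0)
def cO (x : Fin 62) : Fin 14 := Fin.ofNat 14 (cL.getD x.val 0)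
def bO (x : Fin 62) : Bool := bL.getD x.val 0 == 1
def pO (x : Fin 62) : ℕ := pL.getD x.val 0
def fO (x : Fin 62) : Fin 14 := Fin.ofNat 14 (fL.getD x.val 0)
def vO (x : Fin 62) : Fin 12 := Fin.ofNat 12 (vL.getD x.val 0)

/-- The dart leaving position `p`. -/
def tO (p : Fin 14) : Fin 62 := ⟨p.val, by omega⟩

theorem tO_c : ∀ p : Fin 14, cO (tO p) = p ∧ bO (tO p) = true := by decide +kernel

theorem aO_aO : ∀ x, aO (aO x) = x := by decide +kernel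
theorem aO_ne : ∀ x, aO x ≠ x := by decide +kernel
theorem sO_inj : ∀ x y, sO x = sO y → x = y := by decide +kernel

theorem kinds : ∀ x : Fin 62, (x.val < 14 ↔ (sO x).val < 14) ∧ (26 ≤ x.val ↔ 26 ≤ (sO x).val) := by
  decide +kernel

theorem hub_s : ∀ p : Fin 14, sO (tO p) = tO (p + 1) := by decide +kernel

/-- Reversal on labels. -/
def sc (k : Bool × Fin 14) : Bool × Fin 14 :=
  if k.2 = 6 then (true, 13) else if k.2 = 13 then (true, 6) else (!k.1, k.2)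

theorem lab_chord : ∀ x, cO x = 6 ∨ cO x = 13 → bO x = true := by decide +kernel

theorem lab_aO : ∀ x, (bO (aO x), cO (aO x)) = sc (bO x, cO x) := by decide +kernel

theorem cross_four_O : ∀ x : Fin 62, 26 ≤ x.val → sO (sO (sO (sO x))) = x := by decide +kernel

theorem cross_opp_O : ∀ x : Fin 62, 26 ≤ x.val → (bO (sO (sO x)), cO (sO (sO x))) =
    sc (bO x, cO x) := by decide +kernel

theorem cross_ne_O : ∀ x : Fin 62, 26 ≤ x.val → cO (sO x) ≠ cO x ∧ cO x ≠ 6 ∧ cO x ≠ 13 ∧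
    cO (sO x) ≠ 6 ∧ cO (sO x) ≠ 13 := by decide +kernel

theorem pos_O : (∀ x : Fin 62, x.val < 26 → pO x = 0) ∧
    (∀ x, 26 ≤ (aO x).val → pO (sO (sO (aO x))) = pO x + 1) := by decide +kernel

theorem face_O : ∀ x, fO (sO (aO x)) = fO x := by decide +kernel
theorem face_O_surj : ∀ y, ∃ x, fO x = y := by decide +kernel
theorem vert_O : ∀ x : Fin 62, 14 ≤ x.val → vO (sO x) = vO x := by decide +kernel
theorem vert_O_surj : ∀ y, ∃ x : Fin 62, 14 ≤ x.val ∧ vO x = y := by decide +kernel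

/-- The stars: every star dart is obtained from every other one of its star by rotation. -/
theorem star_O : ∀ x y : Fin 62, 14 ≤ x.val → x.val < 26 → 14 ≤ y.val → y.val < 26 →
    (cO x).val % 7 % 3 = (cO y).val % 7 % 3 →
    y = x ∨ y = sO x ∨ y = sO (sO x) ∨ y = sO (sO (sO x)) := by decide +kernel

theorem star_O' : ∀ x : Fin 62, 14 ≤ x.val → x.val < 26 →
    (cO x).val % 7 ≠ 6 ∧ bO x = false ∧ (cO (sO x)).val % 7 % 3 = (cO x).val % 7 % 3 := by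
  decide +kernel

theorem star_O_ex : ∀ p : Fin 14, p.val % 7 ≠ 6 → ∃ x : Fin 62, 14 ≤ x.val ∧ x.val < 26 ∧
    cO x = p := by decide +kernel

theorem star_O_inj : ∀ x y : Fin 62, 14 ≤ x.val → x.val < 26 → 14 ≤ y.val → y.val < 26 →
    cO x = cO y → x = y := by decide +kernel

theorem hub_O : ∀ x : Fin 62, x.val < 14 → tO (cO x) = x := by decide +kernel

/-- Distance to the darts at the outermost cycle. -/
def rL : List ℕ := [0, 0, 0, 0, 0, 0, 0, 0, 0, 0, 0, 0, 0, 0, 2, 1, 2, 1, 2, 1, 2, 1, 1, 2, 1, 2, 5,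
  5, 4, 4, 3, 2, 1, 4, 3, 4, 3, 3, 3, 3, 2, 1, 1, 3, 3, 2, 5, 5, 4, 3, 2, 1, 4, 3, 2, 1, 3, 3, 2,
  1, 3, 3]

def rO (x : Fin 62) : ℕ := rL.getD x.val 0

theorem rank_O : ∀ x : Fin 62, 14 ≤ x.val → rO (sO x) < rO x ∨ rO (aO x) < rO x := by
  decide +kernel

theorem four_O : ∀ x : Fin 62, 14 ≤ x.val → 14 ≤ (sO x).val ∧ sO (sO (sO (sO x))) = x := by
  decide +kernel

theorem even_O : ∀ c c' : Fin 14, c.val % 7 ≠ 6 → c'.val % 7 ≠ 6 →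
    c.val % 7 % 3 ≠ c'.val % 7 % 3 →
    Even ((Finset.univ.filter (fun x : Fin 62 => 26 ≤ x.val ∧ cO x = c ∧ cO (sO x) = c')).card
      / 2) := by
  decide +kernel

end Pool.Agent.MP_c359ba_co
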