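import Pool.Agent.MP_c359ba_co.Defs
import Pool.Agent.MP_c359ba_co.Lower
import Pool.Agent.MP_c359ba_co.Table

set_option autoImplicit false

/-!
# The drawing: darts, rotation, reversal
-/

namespace Pool.Agent.MP_c359ba_co

open Equiv Equiv.Perm

/-- Darts of the drawing: horizontal, vertical, outer. -/
abbrev DD (N : ℕ) : Type := (Bool × Fin N × Fin 14) ⊕ (Bool × Fin (N - 1) × Fin 14) ⊕ Fin 62

variable {N : ℕ}

/-- Rotation. -/
def sF (hN : 2 ≤ N) : DD N → DD N
  | Sum.inl (false, j, p) =>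
      if h : j.val < N - 1 then Sum.inr (Sum.inl (true, ⟨j.val, h⟩, p))
      else Sum.inr (Sum.inr (tO p))
  | Sum.inl (true, j, p) =>
      if h : 0 < j.val then Sum.inr (Sum.inl (false, ⟨j.val - 1, by omega⟩, p))
      else Sum.inl (false, j, p)
  | Sum.inr (Sum.inl (true, j, p)) => Sum.inl (true, ⟨j.val, by omega⟩, p)
  | Sum.inr (Sum.inl (false, j, p)) => Sum.inl (false, ⟨j.val + 1, by omega⟩, p)
  | Sum.inr (Sum.inr x) =>
      if h : x.val < 14 then Sum.inl (true, ⟨N - 1, by omega⟩, ⟨x.val, h⟩)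
      else Sum.inr (Sum.inr (sO x))

/-- Inverse rotation. -/
def sG (hN : 2 ≤ N) : DD N → DD N
  | Sum.inl (true, j, p) =>
      if h : j.val < N - 1 then Sum.inr (Sum.inl (true, ⟨j.val, h⟩, p))
      else Sum.inr (Sum.inr (tO p))
  | Sum.inl (false, j, p) =>
      if h : 0 < j.val then Sum.inr (Sum.inl (false, ⟨j.val - 1, by omega⟩, p))
      else Sum.inl (true, j, p)
  | Sum.inr (Sum.inl (true, j, p)) => Sum.inl (false, ⟨j.val, by omega⟩, p)
  | Sum.inr (Sum.inl (false, j, p)) => Sum.inl (true, ⟨j.val + 1, by omega⟩, p)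
  | Sum.inr (Sum.inr x) =>
      if h : x.val < 14 then Sum.inl (false, ⟨N - 1, by omega⟩, ⟨x.val, h⟩)
      else Sum.inr (Sum.inr (sO (sO (sO x))))

/-- Reversal. -/
def aF : DD N → DD N
  | Sum.inl (s, j, p) => Sum.inl (!s, j, sh s p)
  | Sum.inr (Sum.inl (b, j, p)) => Sum.inr (Sum.inl (!b, j, p))
  | Sum.inr (Sum.inr x) => Sum.inr (Sum.inr (aO x))

theorem sG_sF (hN : 2 ≤ N) (d : DD N) : sG hN (sF hN d) = d := by
  rcases d with ⟨s, j, p⟩ | ⟨b, j, p⟩ | x
  · cases s
    · rw [sF]
      split_ifs with h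
      · rfl
      · have hj := j.2
        have h1 : (tO p).val < 14 := p.2
        rw [sG, dif_pos h1]
        congr 3
        exact Fin.ext (by simp only; omega)
    · rw [sF]
      split_ifs with h
      · rw [sG]
        congr 3
        exact Fin.ext (by simp only; omega)
      · rw [sG, dif_neg h]
  · cases b
    · rw [sF, sG, dif_pos (by simp)]
      congr 3
    · have hj := j.2
      rw [sF, sG, dif_pos hj]
  · rw [sF]
    split_ifs with h
    · rw [sG, dif_neg (by simp)]
      congr 2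
    · have h1 := four_O x (by omega)
      rw [sG, dif_neg (by omega), h1.2]

theorem sF_sG (hN : 2 ≤ N) (d : DD N) : sF hN (sG hN d) = d := by
  rcases d with ⟨s, j, p⟩ | ⟨b, j, p⟩ | x
  · cases s
    · rw [sG]
      split_ifs with h
      · rw [sF]
        congr 3
        exact Fin.ext (by simp only; omega)
      · rw [sF, dif_neg h]
    · rw [sG]
      split_ifs with h
      · rfl
      · have hj := j.2
        have h1 : (tO p).val < 14 := p.2
        rw [sF, dif_pos h1]
        congr 3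
        exact Fin.ext (by simp only; omega)
  · cases b
    · rw [sG, sF, dif_pos (by simp)]
      congr 3
    · have hj := j.2
      rw [sG, sF, dif_pos hj]
  · rw [sG]
    split_ifs with h
    · rw [sF, dif_neg (by simp)]
      congr 2
    · have h1 := four_O x (by omega)
      have h2 := four_O _ h1.1
      have h3 := four_O _ h2.1
      rw [sF, dif_neg (by omega), h1.2]

theorem aF_aF (d : DD N) : aF (aF d) = d := by
  rcases d with ⟨s, j, p⟩ | ⟨b, j, p⟩ | x
  · simp only [aF, Bool.not_not, sh_sh]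
  · simp only [aF, Bool.not_not]
  · simp only [aF, aO_aO]

/-- Rotation as a permutation. -/
def sP (hN : 2 ≤ N) : Perm (DD N) := ⟨sF hN, sG hN, sG_sF hN, sF_sG hN⟩

/-- Reversal as a permutation. -/
def aP : Perm (DD N) := ⟨aF, aF, aF_aF, aF_aF⟩

/-- The crossing darts. -/
def crF : DD N → Prop
  | Sum.inl _ => False
  | Sum.inr (Sum.inl _) => False
  | Sum.inr (Sum.inr x) => 26 ≤ x.val

/-- The oriented edge leaving position `p` outwards. -/
def outD (hN : 2 ≤ N) (p : Fin 14) : (Gr N).Dart :=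
  ⟨(vx N (N - 1) p, topEnd N p), adj_top (by omega) p⟩

/-- Labels of the outer darts. -/
def labC (hN : 2 ≤ N) (k : Bool × Fin 14) : (Gr N).Dart :=
  if k.1 then outD hN k.2 else (outD hN k.2).symm

/-- Labels. -/
def labF (hN : 2 ≤ N) : DD N → (Gr N).Dart
  | Sum.inl (s, j, p) => ⟨(vx N j.val p, vx N j.val (sh s p)), adj_sh j.2 s p⟩
  | Sum.inr (Sum.inl (true, j, p)) => ⟨(vx N j.val p, vx N (j.val + 1) p), adj_up (by omega) p⟩
  | Sum.inr (Sum.inl (false, j, p)) =>
      ⟨(vx N (j.val + 1) p, vx N j.val p), (adj_up (by omega) p).symm⟩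
  | Sum.inr (Sum.inr x) => labC hN (bO x, cO x)

/-- Positions along the edges. -/
def posFn : DD N → ℕ
  | Sum.inl _ => 0
  | Sum.inr (Sum.inl _) => 0
  | Sum.inr (Sum.inr x) => pO x

end Pool.Agent.MP_c359ba_co
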