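import Pool.Agent.MP_c359ba_co.Upper

set_option autoImplicit false

/-!
# The drawing: verification
-/

namespace Pool.Agent.MP_c359ba_co

open Equiv Equiv.Perm

variable {N : ℕ}

theorem aF_ne (d : DD N) : aF d ≠ d := by
  rcases d with ⟨s, j, p⟩ | ⟨b, j, p⟩ | x
  · intro h
    simp only [aF, Sum.inl.injEq, Prod.mk.injEq] at h
    cases s <;> simp at h
  · intro h
    simp only [aF, Sum.inr.injEq, Sum.inl.injEq, Prod.mk.injEq] at h
    cases b <;> simp at h
  · intro h
    simp only [aF, Sum.inr.injEq] at h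
    exact aO_ne x h

theorem topEnd_six : topEnd N 6 = vx N (N - 1) 13 := by rw [topEnd, if_pos rfl]

theorem topEnd_thirteen : topEnd N 13 = vx N (N - 1) 6 := by
  rw [topEnd, if_neg (by decide), if_pos rfl]

theorem topEnd_leg {p : Fin 14} (h : p.val % 7 ≠ 6) : topEnd N p = Sum.inr (stOf p) := by
  obtain ⟨h6, h7⟩ := fin14_leg' p h
  rw [topEnd, if_neg h6, if_neg h7]

theorem outD_chord (hN : 2 ≤ N) : outD hN 13 = (outD hN 6).symm := by
  apply SimpleGraph.Dart.ext
  simp [outD, SimpleGraph.Dart.symm, topEnd_six, topEnd_thirteen]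

theorem labC_sc (hN : 2 ≤ N) (k : Bool × Fin 14) (hk : k.2 = 6 ∨ k.2 = 13 → k.1 = true) :
    labC hN (sc k) = (labC hN k).symm := by
  obtain ⟨b, c⟩ := k
  simp only at hk
  by_cases h6 : c = 6
  · subst h6
    have hb := hk (Or.inl rfl)
    subst hb
    simp only [sc, labC, if_true]
    exact outD_chord hN
  · by_cases h7 : c = 13
    · subst h7
      have hb := hk (Or.inr rfl)
      subst hb
      simp only [sc, labC, if_true]
      rw [if_neg h6, outD_chord hN]
      simp
    · simp only [sc, labC, if_neg h6, if_neg h7]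
      cases b <;> simp

theorem lab_aF (hN : 2 ≤ N) (d : DD N) : labF hN (aF d) = (labF hN d).symm := by
  rcases d with ⟨s, j, p⟩ | ⟨b, j, p⟩ | x
  · apply SimpleGraph.Dart.ext
    simp only [aF, labF, SimpleGraph.Dart.symm, sh_sh, Prod.swap]
  · cases b <;> rfl
  · simp only [aF, labF]
    rw [lab_aO x]
    exact labC_sc hN _ (lab_chord x)

theorem cr_sF (hN : 2 ≤ N) (d : DD N) : crF (sF hN d) ↔ crF d := by
  rcases d with ⟨s, j, p⟩ | ⟨b, j, p⟩ | x
  · cases s
    · simp only [sF]
      split_ifs with h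
      · exact Iff.rfl
      · have : (tO p).val < 14 := p.2
        exact ⟨fun h => by simp only [crF] at h; omega, fun h => h.elim⟩
    · simp only [sF]
      split_ifs with h <;> exact Iff.rfl
  · cases b <;> exact Iff.rfl
  · simp only [sF]
    split_ifs with h
    · exact ⟨fun h => h.elim, fun h => by simp only [crF] at h; omega⟩
    · simp only [crF]
      exact (kinds x).2.symm

theorem sF_outer (hN : 2 ≤ N) {x : Fin 62} (h : 14 ≤ x.val) :
    sF hN (Sum.inr (Sum.inr x)) = Sum.inr (Sum.inr (sO x)) := by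
  simp only [sF]
  rw [dif_neg (by omega)]

theorem cross_exists {d : DD N} (h : crF d) : ∃ x : Fin 62, 26 ≤ x.val ∧
    d = Sum.inr (Sum.inr x) := by
  rcases d with ⟨s, j, p⟩ | ⟨b, j, p⟩ | x
  · exact absurd h id
  · exact absurd h id
  · exact ⟨x, h, rfl⟩

theorem four_F (hN : 2 ≤ N) (d : DD N) (h : crF d) : sF hN (sF hN (sF hN (sF hN d))) = d := by
  obtain ⟨x, hx, rfl⟩ := cross_exists h
  have h1 := (kinds x).2.1 hx
  have h2 := (kinds _).2.1 h1
  have h3 := (kinds _).2.1 h2
  rw [sF_outer hN (by omega), sF_outer hN (by omega), sF_outer hN (by omega),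
    sF_outer hN (by omega), cross_four_O x hx]

theorem opp_F (hN : 2 ≤ N) (d : DD N) (h : crF d) :
    labF hN (sF hN (sF hN d)) = (labF hN d).symm := by
  obtain ⟨x, hx, rfl⟩ := cross_exists h
  have h1 := (kinds x).2.1 hx
  rw [sF_outer hN (by omega), sF_outer hN (by omega)]
  simp only [labF]
  rw [cross_opp_O x hx]
  exact labC_sc hN _ (lab_chord x)

theorem labC_edge (hN : 2 ≤ N) (k : Bool × Fin 14) : (labC hN k).edge = (outD hN k.2).edge := by
  unfold labC
  split_ifs
  · rfl
  · exact SimpleGraph.Dart.edge_symm _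

theorem outD_edge (hN : 2 ≤ N) {p : Fin 14} (hp : p.val % 7 ≠ 6) :
    (outD hN p).edge = s(vx N (N - 1) p, Sum.inr (stOf p)) := by
  unfold outD
  simp only [SimpleGraph.Dart.edge]
  rw [topEnd_leg hp]

theorem outD_edge_inj (hN : 2 ≤ N) {p q : Fin 14} (hp : p.val % 7 ≠ 6) (hq : q.val % 7 ≠ 6)
    (h : (outD hN p).edge = (outD hN q).edge) : p = q := by
  rw [outD_edge hN hp, outD_edge hN hq, Sym2.eq_iff] at h
  rcases h with ⟨h, -⟩ | ⟨h, -⟩
  · exact (vx_inj (by omega) (by omega) h).2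
  · rw [vx_of_lt (by omega)] at h
    exact absurd h (by simp)

theorem cross_legs : ∀ x : Fin 62, 26 ≤ x.val → (cO x).val % 7 ≠ 6 ∧ (cO (sO x)).val % 7 ≠ 6 := by
  decide +kernel

theorem ne_F (hN : 2 ≤ N) (d : DD N) (h : crF d) :
    (labF hN (sF hN d)).edge ≠ (labF hN d).edge := by
  obtain ⟨x, hx, rfl⟩ := cross_exists h
  rw [sF_outer hN (by omega)]
  simp only [labF]
  rw [labC_edge, labC_edge]
  intro he
  have hl := cross_legs x hx
  exact (cross_ne_O x hx).1 (outD_edge_inj hN hl.2 hl.1 he)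

theorem pos0_F (d : DD N) (h : ¬ crF d) : posFn d = 0 := by
  rcases d with ⟨s, j, p⟩ | ⟨b, j, p⟩ | x
  · rfl
  · rfl
  · exact pos_O.1 x (by simpa [crF] using h)

theorem pos1_F (hN : 2 ≤ N) (d : DD N) (h : crF (aF d)) :
    posFn (sF hN (sF hN (aF d))) = posFn d + 1 := by
  rcases d with ⟨s, j, p⟩ | ⟨b, j, p⟩ | x
  · exact absurd h id
  · exact absurd h id
  · simp only [aF, crF] at h ⊢
    have h1 := (kinds _).2.1 h
    rw [sF_outer hN (by omega), sF_outer hN (by omega)]
    exact pos_O.2 x h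

/-! ### Vertices -/

/-- Tail of a dart. -/
def tl (hN : 2 ≤ N) (d : DD N) : Vt N := (labF hN d).fst

theorem tl_out (hN : 2 ≤ N) (p : Fin 14) :
    tl hN (Sum.inr (Sum.inr (tO p))) = vx N (N - 1) p := by
  simp only [tl, labF, labC, (tO_c p).1, (tO_c p).2, if_true, outD]

theorem tl_star (hN : 2 ≤ N) {x : Fin 62} (h1 : 14 ≤ x.val) (h2 : x.val < 26) :
    tl hN (Sum.inr (Sum.inr x)) = Sum.inr (stOf (cO x)) := by
  obtain ⟨h3, h4, -⟩ := star_O' x h1 h2
  simp only [tl, labF, labC, h4, outD]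
  simp only [Bool.false_eq_true, if_false, SimpleGraph.Dart.symm, Prod.swap]
  exact topEnd_leg h3

theorem noncross_cases {d : DD N} (h : ¬ crF d) :
    (∃ s j p, d = Sum.inl (s, j, p)) ∨ (∃ b j p, d = Sum.inr (Sum.inl (b, j, p))) ∨
    (∃ p, d = Sum.inr (Sum.inr (tO p))) ∨
    (∃ x : Fin 62, 14 ≤ x.val ∧ x.val < 26 ∧ d = Sum.inr (Sum.inr x)) := by
  rcases d with ⟨s, j, p⟩ | ⟨b, j, p⟩ | x
  · exact Or.inl ⟨s, j, p, rfl⟩
  · exact Or.inr (Or.inl ⟨b, j, p, rfl⟩)
  · right; right
    have hx : x.val < 26 := by simpa [crF] using h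
    by_cases h14 : x.val < 14
    · left; exact ⟨cO x, by rw [hub_O x h14]⟩
    · right; exact ⟨x, by omega, hx, rfl⟩

theorem sc_step (hN : 2 ≤ N) (d : DD N) : SameCycle (sP hN) d (sF hN d) :=
  ((SameCycle.refl (sP hN) d).apply_right : SameCycle (sP hN) d (sP hN d))

/-- Every non-crossing dart is either at a grid vertex, in the cycle of the horizontal dart, or
at a star. -/
theorem canon (hN : 2 ≤ N) {d : DD N} (h : ¬ crF d) :
    (∃ (j : Fin N) (p : Fin 14), tl hN d = vx N j.val p ∧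
      SameCycle (sP hN) d (Sum.inl (true, j, p))) ∨
    (∃ x : Fin 62, 14 ≤ x.val ∧ x.val < 26 ∧ d = Sum.inr (Sum.inr x) ∧
      tl hN d = Sum.inr (stOf (cO x))) := by
  have hU : ∀ (j : Fin (N - 1)) p, SameCycle (sP hN) (Sum.inr (Sum.inl (true, j, p)))
      (Sum.inl (true, (⟨j.val, by omega⟩ : Fin N), p)) := fun j p => sc_step hN _
  have hT : ∀ p, SameCycle (sP hN) (Sum.inr (Sum.inr (tO p)))
      (Sum.inl (true, (⟨N - 1, by omega⟩ : Fin N), p)) := by
    intro p
    have := sc_step hN (Sum.inr (Sum.inr (tO p)))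
    have h1 : (tO p).val < 14 := p.2
    simp only [sF] at this
    rw [dif_pos h1] at this
    exact this
  have hH : ∀ (j : Fin N) p, SameCycle (sP hN) (Sum.inl (false, j, p)) (Sum.inl (true, j, p)) := by
    intro j p
    have h0 := sc_step hN (Sum.inl (false, j, p))
    simp only [sF] at h0
    split_ifs at h0 with hj
    · exact h0.trans (hU ⟨j.val, hj⟩ p)
    · have e : (⟨N - 1, by omega⟩ : Fin N) = j := Fin.ext (by have := j.2; simp only; omega)
      have := hT p
      rw [e] at this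
      exact h0.trans this
  rcases noncross_cases h with ⟨s, j, p, rfl⟩ | ⟨b, j, p, rfl⟩ | ⟨p, rfl⟩ | ⟨x, h1, h2, rfl⟩
  · left
    refine ⟨j, p, rfl, ?_⟩
    cases s
    · exact hH j p
    · exact SameCycle.refl _ _
  · left
    have hj := j.2
    cases b
    · refine ⟨⟨j.val + 1, by omega⟩, p, rfl, ?_⟩
      exact (sc_step hN _).trans (hH ⟨j.val + 1, by omega⟩ p)
    · exact ⟨⟨j.val, by omega⟩, p, rfl, hU j p⟩
  · left
    exact ⟨⟨N - 1, by omega⟩, p, tl_out hN p, hT p⟩
  · right
    exact ⟨x, h1, h2, rfl, tl_star hN h1 h2⟩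

theorem tl_sF (hN : 2 ≤ N) {d : DD N} (h : ¬ crF d) : tl hN (sF hN d) = tl hN d := by
  rcases noncross_cases h with ⟨s, j, p, rfl⟩ | ⟨b, j, p, rfl⟩ | ⟨p, rfl⟩ | ⟨x, h1, h2, rfl⟩
  · have hj := j.2
    cases s
    · simp only [sF]
      split_ifs with hj
      · rfl
      · rw [tl_out]
        have : N - 1 = j.val := by omega
        change vx N (N - 1) p = vx N j.val p
        rw [this]
    · simp only [sF]
      split_ifs with hj
      · simp only [tl, labF]
        rw [show j.val - 1 + 1 = j.val by omega]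
      · rfl
  · cases b <;> rfl
  · rw [tl_out]
    simp only [sF]
    have h1 : (tO p).val < 14 := p.2
    rw [dif_pos h1]
    rfl
  · have h3 := (four_O x h1).1
    have h4 : (sO x).val < 26 := by
      by_contra hc
      have := (kinds x).2.2 (by omega)
      omega
    rw [sF_outer hN h1, tl_star hN h3 h4, tl_star hN h1 h2]
    congr 1
    exact Fin.ext (star_O' x h1 h2).2.2

theorem vert_same_F (hN : 2 ≤ N) (d e : DD N) (hd : ¬ crF d) (he : ¬ crF e) :
    SameCycle (sP hN) d e ↔ tl hN d = tl hN e := by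
  constructor
  · intro h
    obtain ⟨n, hn⟩ := h.exists_nat_pow_eq
    have key : ∀ n : ℕ, ¬ crF (((sP hN) ^ n) d) ∧ tl hN (((sP hN) ^ n) d) = tl hN d := by
      intro n
      induction n with
      | zero => exact ⟨hd, rfl⟩
      | succ n ih =>
        rw [pow_succ', Perm.mul_apply]
        change ¬ crF (sF hN _) ∧ tl hN (sF hN _) = _
        rw [cr_sF, tl_sF hN ih.1]
        exact ih
    rw [← hn]
    exact (key n).2.symm
  · intro h
    rcases canon hN hd with ⟨j, p, h1, h2⟩ | ⟨x, h1, h2, h3, h4⟩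
    · rcases canon hN he with ⟨k, q, h3, h4⟩ | ⟨y, h3, h4, h5, h6⟩
      · rw [h1, h3] at h
        obtain ⟨h5, rfl⟩ := vx_inj j.2 k.2 h
        have : j = k := Fin.ext h5
        subst this
        exact h2.trans h4.symm
      · rw [h1, h6, vx_of_lt j.2] at h
        exact absurd h (by simp)
    · rcases canon hN he with ⟨k, q, h5, h6⟩ | ⟨y, h5, h6, h7, h8⟩
      · rw [h4, h5, vx_of_lt k.2] at h
        exact absurd h (by simp)
      · rw [h4, h8] at h
        have hs : stOf (cO x) = stOf (cO y) := by simpa using h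
        have hs' : (cO x).val % 7 % 3 = (cO y).val % 7 % 3 := congrArg Fin.val hs
        have a1 := (four_O x h1).1
        have a2 := (four_O _ a1).1
        have s1 := sc_step hN (Sum.inr (Sum.inr x))
        have s2 := sc_step hN (Sum.inr (Sum.inr (sO x)))
        have s3 := sc_step hN (Sum.inr (Sum.inr (sO (sO x))))
        rw [sF_outer hN (by omega)] at s1 s2 s3
        rw [h3, h7]
        rcases star_O x y h1 h2 h5 h6 hs' with e | e | e | e
        · rw [e]
        · rw [e]; exact s1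
        · rw [e]; exact s1.trans s2
        · rw [e]; exact (s1.trans s2).trans s3

end Pool.Agent.MP_c359ba_co
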