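import Pool.Agent.MP_c359ba_co.Upper2

set_option autoImplicit false

/-!
# The drawing: oriented edges, connectedness
-/

namespace Pool.Agent.MP_c359ba_co

open Equiv Equiv.Perm

variable {N : ℕ}

/-- Head of a dart. -/
def hd (hN : 2 ≤ N) (d : DD N) : Vt N := (labF hN d).snd

theorem hd_out (hN : 2 ≤ N) (p : Fin 14) :
    hd hN (Sum.inr (Sum.inr (tO p))) = topEnd N p := by
  simp only [hd, labF, labC, (tO_c p).1, (tO_c p).2, if_true, outD]

theorem hd_star (hN : 2 ≤ N) {x : Fin 62} (h1 : 14 ≤ x.val) (h2 : x.val < 26) :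
    hd hN (Sum.inr (Sum.inr x)) = vx N (N - 1) (cO x) := by
  obtain ⟨h3, h4, -⟩ := star_O' x h1 h2
  simp only [hd, labF, labC, h4, outD]
  simp only [Bool.false_eq_true, if_false, SimpleGraph.Dart.symm, Prod.swap]

theorem vx_ne_inr' {j : ℕ} (hj : j < N) {p : Fin 14} {s : Fin 3} : vx N j p ≠ Sum.inr s := by
  rw [vx_of_lt hj]; simp

theorem sh_ne' : ∀ s, sh s 6 ≠ 13 ∧ sh s 13 ≠ 6 := by decide

theorem sh_inj : ∀ s t p, sh s p = sh t p → s = t := by decide

theorem topEnd_cases (hN : 2 ≤ N) (p : Fin 14) : (∃ q, topEnd N p = vx N (N - 1) q ∧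
    ∀ s, sh s p ≠ q) ∨ ∃ s, topEnd N p = Sum.inr s := by
  unfold topEnd
  split_ifs with h1 h2
  · exact Or.inl ⟨13, rfl, fun s => by rw [h1]; exact (sh_ne' s).1⟩
  · exact Or.inl ⟨6, rfl, fun s => by rw [h2]; exact (sh_ne' s).2⟩
  · exact Or.inr ⟨_, rfl⟩

theorem lab_inj (hN : 2 ≤ N) {d e : DD N} (hd' : ¬ crF d) (he : ¬ crF e)
    (h : labF hN d = labF hN e) : d = e := by
  have ht : tl hN d = tl hN e := by unfold tl; rw [h]
  have hh : hd hN d = hd hN e := by unfold hd; rw [h]
  rcases noncross_cases hd' with ⟨s, j, p, rfl⟩ | ⟨b, j, p, rfl⟩ | ⟨p, rfl⟩ | ⟨x, x1, x2, rfl⟩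
  · have ht : vx N j.val p = _ := ht
    have hh : vx N j.val (sh s p) = _ := hh
    have lj := j.2
    rcases noncross_cases he with ⟨t, k, q, rfl⟩ | ⟨c, k, q, rfl⟩ | ⟨q, rfl⟩ | ⟨y, y1, y2, rfl⟩
    · have ht : vx N j.val p = vx N k.val q := ht
      have hh : vx N j.val (sh s p) = vx N k.val (sh t q) := hh
      obtain ⟨e1, rfl⟩ := vx_inj j.2 k.2 ht
      obtain ⟨-, e2⟩ := vx_inj j.2 k.2 hh
      rw [Fin.ext e1, sh_inj _ _ _ e2]
    · exfalso
      have lk := k.2
      cases c
      · have ht : vx N j.val p = vx N (k.val + 1) q := ht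
        have hh : vx N j.val (sh s p) = vx N k.val q := hh
        have := (vx_inj j.2 (by omega) ht).1
        have := (vx_inj j.2 (by omega) hh).1
        omega
      · have ht : vx N j.val p = vx N k.val q := ht
        have hh : vx N j.val (sh s p) = vx N (k.val + 1) q := hh
        have := (vx_inj j.2 (by omega) ht).1
        have := (vx_inj j.2 (by omega) hh).1
        omega
    · exfalso
      rw [tl_out] at ht
      rw [hd_out] at hh
      obtain ⟨-, rfl⟩ := vx_inj j.2 (by omega) ht
      rcases topEnd_cases hN p with ⟨q, h1, h2⟩ | ⟨t, h1⟩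
      · rw [h1] at hh
        exact h2 s (vx_inj j.2 (by omega) hh).2
      · rw [h1] at hh
        exact vx_ne_inr' j.2 hh
    · exfalso
      rw [tl_star hN y1 y2] at ht
      exact vx_ne_inr' j.2 ht
  · have lj := j.2
    rcases noncross_cases he with ⟨t, k, q, rfl⟩ | ⟨c, k, q, rfl⟩ | ⟨q, rfl⟩ | ⟨y, y1, y2, rfl⟩
    · exfalso
      have lk := k.2
      have ht : _ = vx N k.val q := ht
      have hh : _ = vx N k.val (sh t q) := hh
      cases b
      · have ht : vx N (j.val + 1) p = vx N k.val q := ht
        have hh : vx N j.val p = vx N k.val (sh t q) := hh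
        have := (vx_inj (by omega) (by omega) ht).1
        have := (vx_inj (by omega) (by omega) hh).1
        omega
      · have ht : vx N j.val p = vx N k.val q := ht
        have hh : vx N (j.val + 1) p = vx N k.val (sh t q) := hh
        have := (vx_inj (by omega) (by omega) ht).1
        have := (vx_inj (by omega) (by omega) hh).1
        omega
    · have lk := k.2
      cases b <;> cases c
      · have ht : vx N (j.val + 1) p = vx N (k.val + 1) q := ht
        obtain ⟨e1, rfl⟩ := vx_inj (by omega) (by omega) ht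
        have e1 : j = k := Fin.ext (by omega)
        rw [e1]
      · exfalso
        have ht : vx N (j.val + 1) p = vx N k.val q := ht
        have hh : vx N j.val p = vx N (k.val + 1) q := hh
        have := (vx_inj (by omega) (by omega) ht).1
        have := (vx_inj (by omega) (by omega) hh).1
        omega
      · exfalso
        have ht : vx N j.val p = vx N (k.val + 1) q := ht
        have hh : vx N (j.val + 1) p = vx N k.val q := hh
        have := (vx_inj (by omega) (by omega) ht).1
        have := (vx_inj (by omega) (by omega) hh).1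
        omega
      · have ht : vx N j.val p = vx N k.val q := ht
        obtain ⟨e1, rfl⟩ := vx_inj (by omega) (by omega) ht
        have e1 : j = k := Fin.ext (by omega)
        rw [e1]
    · exfalso
      rw [tl_out] at ht
      rw [hd_out] at hh
      cases b
      · have ht : vx N (j.val + 1) p = vx N (N - 1) q := ht
        have hh : vx N j.val p = topEnd N q := hh
        rcases topEnd_cases hN q with ⟨q', h1, h2⟩ | ⟨t, h1⟩
        · rw [h1] at hh
          have := (vx_inj (by omega) (by omega) hh).1
          omega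
        · rw [h1] at hh
          exact vx_ne_inr' (by omega) hh
      · have ht : vx N j.val p = vx N (N - 1) q := ht
        have := (vx_inj (by omega) (by omega) ht).1
        omega
    · exfalso
      rw [tl_star hN y1 y2] at ht
      cases b
      · exact vx_ne_inr' (j := j.val + 1) (by omega) ht
      · exact vx_ne_inr' (j := j.val) (by omega) ht
  · rw [tl_out] at ht
    rw [hd_out] at hh
    rcases noncross_cases he with ⟨t, k, q, rfl⟩ | ⟨c, k, q, rfl⟩ | ⟨q, rfl⟩ | ⟨y, y1, y2, rfl⟩
    · exfalso
      have ht : vx N (N - 1) p = vx N k.val q := ht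
      have hh : topEnd N p = vx N k.val (sh t q) := hh
      obtain ⟨-, rfl⟩ := vx_inj (by omega) k.2 ht
      rcases topEnd_cases hN p with ⟨q, h1, h2⟩ | ⟨t', h1⟩
      · rw [h1] at hh
        exact h2 t (vx_inj (by omega) k.2 hh).2.symm
      · rw [h1] at hh
        exact vx_ne_inr' k.2 hh.symm
    · exfalso
      have lk := k.2
      cases c
      · have ht : vx N (N - 1) p = vx N (k.val + 1) q := ht
        have hh : topEnd N p = vx N k.val q := hh
        rcases topEnd_cases hN p with ⟨q', h1, h2⟩ | ⟨t, h1⟩
        · rw [h1] at hh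
          have := (vx_inj (by omega) (by omega) hh).1
          omega
        · rw [h1] at hh
          exact vx_ne_inr' (j := k.val) (by omega) hh.symm
      · have ht : vx N (N - 1) p = vx N k.val q := ht
        have := (vx_inj (by omega) (by omega) ht).1
        omega
    · rw [tl_out] at ht
      rw [(vx_inj (by omega) (by omega) ht).2]
    · exfalso
      rw [tl_star hN y1 y2] at ht
      exact vx_ne_inr' (by omega) ht
  · rw [tl_star hN x1 x2] at ht
    rw [hd_star hN x1 x2] at hh
    rcases noncross_cases he with ⟨t, k, q, rfl⟩ | ⟨c, k, q, rfl⟩ | ⟨q, rfl⟩ | ⟨y, y1, y2, rfl⟩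
    · exfalso
      have ht : _ = vx N k.val q := ht
      exact vx_ne_inr' k.2 ht.symm
    · exfalso
      have lk := k.2
      cases c
      · have ht : _ = vx N (k.val + 1) q := ht
        exact vx_ne_inr' (by omega) ht.symm
      · have ht : _ = vx N k.val q := ht
        exact vx_ne_inr' (by omega) ht.symm
    · exfalso
      rw [tl_out] at ht
      exact vx_ne_inr' (by omega) ht.symm
    · rw [hd_star hN y1 y2] at hh
      have := (vx_inj (by omega) (by omega) hh).2
      rw [star_O_inj x y x1 x2 y1 y2 this]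

theorem lab_ex (hN : 2 ≤ N) (a : (Gr N).Dart) : ∃ d, ¬ crF d ∧ labF hN d = a := by
  have key : ∃ d, ¬ crF d ∧ tl hN d = a.fst ∧ hd hN d = a.snd := by
    have ha : (Gr N).Adj a.fst a.snd := a.adj
    generalize a.snd = w at ha ⊢
    generalize a.fst = u at ha ⊢
    rcases u with ⟨j, p⟩ | s
    · have hvx : (Sum.inl (j, p) : Vt N) = vx N j.val p := by rw [vx_of_lt j.2]
      have lj := j.2
      rw [hvx] at ha ⊢
      have hplus : w = vx N j.val (p + 1) → ∃ d, ¬ crF d ∧ tl hN d = vx N j.val p ∧
          hd hN d = w := fun h => ⟨Sum.inl (true, j, p), id, rfl, by rw [h]; rfl⟩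
      have hminus : w = vx N j.val (p - 1) → ∃ d, ¬ crF d ∧ tl hN d = vx N j.val p ∧
          hd hN d = w := fun h => ⟨Sum.inl (false, j, p), id, rfl, by rw [h]; rfl⟩
      have hup : ∀ h : j.val < N - 1, w = vx N (j.val + 1) p →
          ∃ d, ¬ crF d ∧ tl hN d = vx N j.val p ∧ hd hN d = w :=
        fun h h' => ⟨Sum.inr (Sum.inl (true, ⟨j.val, h⟩, p)), id, rfl, by rw [h']; rfl⟩
      have hdown : ∀ h : 0 < j.val, w = vx N (j.val - 1) p →
          ∃ d, ¬ crF d ∧ tl hN d = vx N j.val p ∧ hd hN d = w := by
        intro h h'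
        refine ⟨Sum.inr (Sum.inl (false, ⟨j.val - 1, by omega⟩, p)), id, ?_, ?_⟩
        · change vx N (j.val - 1 + 1) p = _
          rw [show j.val - 1 + 1 = j.val by omega]
        · rw [h']; rfl
      by_cases h0 : j.val = 0
      · rw [h0] at ha
        rcases nbr_bottom hN ha with h | h | h
        · exact hplus (by rw [h0]; exact h)
        · exact hminus (by rw [h0]; exact h)
        · exact hup (by omega) (by rw [h0]; exact h)
      · by_cases h1 : j.val + 1 < N
        · rcases nbr_interior (by omega) h1 ha with h | h | h | h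
          · exact hplus h
          · exact hminus h
          · exact hup (by omega) h
          · exact hdown (by omega) h
        · have h2 : j.val = N - 1 := by omega
          rw [h2] at ha
          rcases nbr_top hN ha with h | h | h | h
          · exact hplus (by rw [h2]; exact h)
          · exact hminus (by rw [h2]; exact h)
          · exact hdown (by omega) (by rw [show j.val - 1 = N - 2 by omega]; exact h)
          · refine ⟨Sum.inr (Sum.inr (tO p)), ?_, ?_, ?_⟩
            · have : (tO p).val < 14 := p.2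
              intro hc
              simp only [crF] at hc
              omega
            · rw [tl_out, h2]
            · rw [hd_out, h]
    · rcases w with ⟨k, q⟩ | t
      · obtain ⟨h1, h2, h3⟩ := ha
        obtain ⟨x, x1, x2, x3⟩ := star_O_ex q h2
        refine ⟨Sum.inr (Sum.inr x), ?_, ?_, ?_⟩
        · intro hc
          simp only [crF] at hc
          omega
        · rw [tl_star hN x1 x2, x3]
          congr 1
          exact Fin.ext h3
        · rw [hd_star hN x1 x2, x3, vx_of_lt (by omega)]
          congr 2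
          exact Fin.ext (by simp only at h1 ⊢; omega)
      · exact absurd ha id
  obtain ⟨d, h1, h2, h3⟩ := key
  exact ⟨d, h1, SimpleGraph.Dart.ext _ _ (Prod.ext h2 h3)⟩

/-! ### Connectedness -/

theorem closed_inv {D : Type} [Finite D] (π : Perm D) (P : D → Prop)
    (h : ∀ d, P d → P (π d)) (d : D) : P (π d) ↔ P d := by
  refine ⟨fun hd => ?_, h d⟩
  have hc : SameCycle π (π d) d := (SameCycle.refl π d).apply_left
  obtain ⟨n, hn⟩ := hc.exists_nat_pow_eq
  have key : ∀ n : ℕ, P ((π ^ n) (π d)) := by
    intro n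
    induction n with
    | zero => exact hd
    | succ n ih => rw [pow_succ', Perm.mul_apply]; exact h _ ih
  rw [← hn]
  exact key n

theorem conn_F (hN : 2 ≤ N) (P : DD N → Prop) (hP : ∀ d, P d → P (sP hN d) ∧ P (aP d))
    (hex : ∃ d, P d) : ∀ d, P d := by
  have hs : ∀ d, P (sF hN d) ↔ P d := closed_inv (sP hN) P (fun d h => (hP d h).1)
  have ha : ∀ d, P (aF d) ↔ P d := closed_inv aP P (fun d h => (hP d h).2)
  set P0 : Prop := P (Sum.inl (true, ⟨0, by omega⟩, 0)) with hP0
  -- every dart is equivalent to the base dart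
  have hHH : ∀ (j : Fin N) p, P (Sum.inl (true, j, p)) ↔ P (Sum.inl (false, j, p + 1)) := by
    intro j p
    rw [← ha]; rfl
  have hUH : ∀ (j : Fin (N - 1)) p, P (Sum.inr (Sum.inl (true, j, p))) ↔
      P (Sum.inl (true, ⟨j.val, by omega⟩, p)) := by
    intro j p
    rw [← hs]; rfl
  have hT : ∀ p, P (Sum.inr (Sum.inr (tO p))) ↔ P (Sum.inl (true, ⟨N - 1, by omega⟩, p)) := by
    intro p
    rw [← hs]
    have h1 : (tO p).val < 14 := p.2
    simp only [sF]
    rw [dif_pos h1]
    rfl
  have hHF : ∀ (j : Fin N) p, P (Sum.inl (false, j, p)) ↔ P (Sum.inl (true, j, p)) := by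
    intro j p
    rw [← hs (Sum.inl (false, j, p))]
    simp only [sF]
    split_ifs with hj
    · exact hUH ⟨j.val, hj⟩ p
    · rw [hT]
      have e : (⟨N - 1, by omega⟩ : Fin N) = j := Fin.ext (by have := j.2; simp only; omega)
      rw [e]
  have hstep : ∀ (j : Fin N) p, P (Sum.inl (true, j, p)) ↔ P (Sum.inl (true, j, p + 1)) := by
    intro j p
    rw [hHH, hHF]
  have hrow : ∀ (j : Fin N) p, P (Sum.inl (true, j, p)) ↔ P (Sum.inl (true, j, 0)) := by
    intro j p
    have : ∀ n : ℕ, (P (Sum.inl (true, j, Fin.ofNat 14 n)) ↔ P (Sum.inl (true, j, 0))) := by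
      intro n
      induction n with
      | zero => exact Iff.rfl
      | succ n ih =>
        rw [← ih]
        have e : (Fin.ofNat 14 (n + 1)) = Fin.ofNat 14 n + 1 := by
          apply Fin.ext
          simp [Fin.val_add]
        rw [e]
        exact (hstep j _).symm
    have h := this p.val
    have e : Fin.ofNat 14 p.val = p := by
      apply Fin.ext
      simp
    rwa [e] at h
  have hcol : ∀ (j : ℕ) (hj : j + 1 < N), P (Sum.inl (true, ⟨j + 1, hj⟩, 0)) ↔
      P (Sum.inl (true, ⟨j, by omega⟩, 0)) := by
    intro j hj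
    rw [← hUH ⟨j, by omega⟩ 0, ← ha (Sum.inr (Sum.inl (true, ⟨j, by omega⟩, 0)))]
    change _ ↔ P (Sum.inr (Sum.inl (false, ⟨j, by omega⟩, 0)))
    rw [← hs (Sum.inr (Sum.inl (false, ⟨j, by omega⟩, 0)))]
    change _ ↔ P (Sum.inl (false, ⟨j + 1, by omega⟩, 0))
    rw [hHF]
  have hH : ∀ (j : ℕ) (hj : j < N) p, P (Sum.inl (true, ⟨j, hj⟩, p)) ↔ P0 := by
    intro j
    induction j with
    | zero => intro hj p; rw [hrow]
    | succ j ih =>
      intro hj p
      rw [hrow, hcol j hj]
      exact ih (by omega) 0
  have hH' : ∀ s (j : Fin N) p, P (Sum.inl (s, j, p)) ↔ P0 := by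
    intro s j p
    cases s
    · rw [hHF]; exact hH j.val j.2 p
    · exact hH j.val j.2 p
  have hO : ∀ n, ∀ x : Fin 62, rO x ≤ n → (P (Sum.inr (Sum.inr x)) ↔ P0) := by
    intro n
    induction n with
    | zero =>
      intro x hx
      have h14 : x.val < 14 := by
        by_contra hc
        rcases rank_O x (by omega) with h | h <;> omega
      rw [← hub_O x h14, hT]
      exact hH' _ _ _
    | succ n ih =>
      intro x hx
      by_cases h14 : x.val < 14
      · rw [← hub_O x h14, hT]
        exact hH' _ _ _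
      · rcases rank_O x (by omega) with h | h
        · rw [← hs, sF_outer hN (by omega)]
          exact ih _ (by omega)
        · rw [← ha]
          exact ih _ (by omega)
  have hall : ∀ d, P d ↔ P0 := by
    rintro (⟨s, j, p⟩ | ⟨b, j, p⟩ | x)
    · exact hH' s j p
    · cases b
      · rw [← hs]
        exact hH' _ _ _
      · rw [hUH]
        exact hH' _ _ _
    · exact hO _ x le_rfl
  obtain ⟨d, hd⟩ := hex
  intro e
  rw [hall e, ← hall d]
  exact hd

end Pool.Agent.MP_c359ba_co
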